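import Pool.Agent.H81.TTK.Defs

/-!
# First properties of word vectors
-/

set_option autoImplicit false

namespace Pool.Agent.H81.TTK

open Finset

section words

variable {V : Type*} [DecidableEq V]

@[simp] theorem one_nil : (one : List V → ℝ) [] = 1 := if_pos rfl

theorem one_ne {Z : List V} (h : Z ≠ []) : one Z = 0 := if_neg h

theorem one_nonneg (Z : List V) : 0 ≤ (one Z : ℝ) := by
  unfold one
  split_ifs <;> norm_num

@[simp] theorem sh_nil (w : V) (h : List V → ℝ) : sh w h [] = 0 := rfl

theorem sh_cons (w a : V) (h : List V → ℝ) (Z : List V) :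
    sh w h (a :: Z) = if a = w then h Z else 0 := rfl

theorem pre_nil (w : V) (h : List V → ℝ) : pre w h [] = h [] := by simp [pre]

theorem pre_cons (w a : V) (h : List V → ℝ) (Z : List V) :
    pre w h (a :: Z) = h (a :: Z) + if a = w then h Z else 0 := rfl

theorem sh_nonneg {w : V} {h : List V → ℝ} (hh : ∀ Z, 0 ≤ h Z) (Z : List V) : 0 ≤ sh w h Z := by
  cases Z with
  | nil => exact le_rfl
  | cons a Z =>
    rw [sh_cons]
    split_ifs
    exacts [hh Z, le_rfl]

theorem pre_nonneg {w : V} {h : List V → ℝ} (hh : ∀ Z, 0 ≤ h Z) (Z : List V) : 0 ≤ pre w h Z :=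
  add_nonneg (hh Z) (sh_nonneg hh Z)

theorem sh_mono {w : V} {h h' : List V → ℝ} (hh : ∀ Z, h Z ≤ h' Z) (Z : List V) :
    sh w h Z ≤ sh w h' Z := by
  cases Z with
  | nil => exact le_rfl
  | cons a Z =>
    rw [sh_cons, sh_cons]
    split_ifs
    exacts [hh Z, le_rfl]

theorem pre_mono {w : V} {h h' : List V → ℝ} (hh : ∀ Z, h Z ≤ h' Z) (Z : List V) :
    pre w h Z ≤ pre w h' Z := add_le_add (hh Z) (sh_mono hh Z)

theorem pre_add (w : V) (h h' : List V → ℝ) (Z : List V) :
    pre w (fun Z => h Z + h' Z) Z = pre w h Z + pre w h' Z := by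
  cases Z with
  | nil => simp [pre_nil]
  | cons a Z =>
    simp only [pre_cons]
    split_ifs <;> ring

theorem pre_sum {ι : Type*} (s : Finset ι) (w : V) (h : ι → List V → ℝ) (Z : List V) :
    pre w (fun Z => ∑ i ∈ s, h i Z) Z = ∑ i ∈ s, pre w (h i) Z := by
  cases Z with
  | nil => simp [pre_nil]
  | cons a Z =>
    simp only [pre_cons, sum_add_distrib]
    split_ifs <;> simp

/-- Products of word functions, with nonempty second factor. -/
def conv (B K : List V → ℝ) : List V → ℝ := fun Z =>
  ∑ i ∈ range Z.length, B (Z.take i) * K (Z.drop i)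

theorem conv_nil (B K : List V → ℝ) : conv B K [] = 0 := by simp [conv]

theorem conv_pre (w : V) (B K : List V → ℝ) (Z : List V) :
    conv (pre w B) K Z = pre w (conv B K) Z := by
  cases Z with
  | nil => simp [conv, pre]
  | cons a Z =>
    have h : ∑ i ∈ range (a :: Z).length, sh w B ((a :: Z).take i) * K ((a :: Z).drop i) =
        if a = w then conv B K Z else 0 := by
      rw [List.length_cons, sum_range_succ']
      simp only [List.take_zero, sh_nil, zero_mul, add_zero, List.take_succ_cons, sh_cons,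
        List.drop_succ_cons]
      split_ifs
      · rfl
      · simp
    rw [pre_cons, ← h]
    simp only [conv, pre, add_mul, sum_add_distrib]

theorem conv_one {K : List V → ℝ} {Z : List V} (hZ : Z ≠ []) : conv one K Z = K Z := by
  unfold conv
  have hl : 0 < Z.length := List.length_pos_iff.2 hZ
  rw [sum_eq_single_of_mem 0 (mem_range.2 hl)]
  · simp
  · intro i _ hi
    rw [one_ne, zero_mul]
    rw [ne_eq, List.take_eq_nil_iff]
    tauto

theorem conv_sum_left {ι : Type*} (s : Finset ι) (c : ι → ℝ) (F : ι → List V → ℝ) (K : List V → ℝ)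
    (Z : List V) :
    conv (fun Z => ∑ i ∈ s, c i * F i Z) K Z = ∑ i ∈ s, c i * conv (F i) K Z := by
  simp only [conv, sum_mul, mul_sum]
  rw [sum_comm]
  exact sum_congr rfl fun i _ => sum_congr rfl fun j _ => by ring

theorem conv_zero_left (K : List V → ℝ) (Z : List V) : conv (fun _ => 0) K Z = 0 := by
  simp [conv]

end words

variable {V : Type*} [Fintype V] [DecidableEq V] {adj : V → V → Prop} {P : V → ℕ → Prop}
  {X : Finset V}

theorem hs_zero {v : V} : Hs adj P X 0 v = {one} := rfl

theorem mem_hs_succ {t : ℕ} {v : V} {h : List V → ℝ} : h ∈ Hs adj P X (t + 1) v ↔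
    ∃ (α : V → ℝ) (k : V → List V → ℝ), (∀ w, 0 ≤ α w) ∧ ∑ w, α w = 1 ∧
      (∀ w, α w ≠ 0 → adj v w ∧ w ∉ X) ∧ (∀ w, P w t → k w ∈ Hs adj P X t w) ∧
      (∀ w, ¬ P w t → k w = one) ∧
      ∀ Z, h Z = ∑ w, α w * (open Classical in if P w t then pre w (k w) Z else one Z) := Iff.rfl

theorem hs_nil {t : ℕ} {v : V} {h : List V → ℝ} (hh : h ∈ Hs adj P X t v) : h [] = 1 := by
  induction t generalizing v h with
  | zero =>
    rw [hs_zero, Set.mem_singleton_iff] at hh
    rw [hh, one_nil]
  | succ t ih =>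
    obtain ⟨α, k, _, h1, _, h3, _, h5⟩ := hh
    rw [h5, ← h1]
    refine sum_congr rfl fun w _ => ?_
    split_ifs with hw
    · rw [pre_nil, ih (h3 w hw), mul_one]
    · rw [one_nil, mul_one]

theorem hs_nonneg {t : ℕ} {v : V} {h : List V → ℝ} (hh : h ∈ Hs adj P X t v) (Z : List V) :
    0 ≤ h Z := by
  induction t generalizing v h Z with
  | zero =>
    rw [hs_zero, Set.mem_singleton_iff] at hh
    rw [hh]
    exact one_nonneg Z
  | succ t ih =>
    obtain ⟨α, k, h0, h1, _, h3, _, h5⟩ := hh
    rw [h5]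
    refine sum_nonneg fun w _ => mul_nonneg (h0 w) ?_
    split_ifs with hw
    · exact pre_nonneg (fun Z => ih (h3 w hw) Z) Z
    · exact one_nonneg Z

theorem hs_long {t : ℕ} {v : V} {h : List V → ℝ} (hh : h ∈ Hs adj P X t v) {Z : List V}
    (hZ : t < Z.length) : h Z = 0 := by
  induction t generalizing v h Z with
  | zero =>
    rw [hs_zero, Set.mem_singleton_iff] at hh
    rw [hh, one_ne (List.length_pos_iff.1 hZ)]
  | succ t ih =>
    obtain ⟨α, k, h0, h1, _, h3, _, h5⟩ := hh
    rw [h5]
    refine sum_eq_zero fun w _ => ?_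
    have hne : Z ≠ [] := List.length_pos_iff.1 (by omega)
    split_ifs with hw
    · cases Z with
      | nil => exact absurd rfl hne
      | cons a Z =>
        rw [List.length_cons] at hZ
        rw [pre_cons, ih (h3 w hw) (by rw [List.length_cons]; omega),
          ih (h3 w hw) (Z := Z) (by omega)]
        simp
    · rw [one_ne hne, mul_zero]

end Pool.Agent.H81.TTK
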