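import Pool.Agent.H81.TTK.Claim

/-!
# Independent choice of the paths; shortening of walks; the top level
-/

set_option autoImplicit false

namespace Pool.Agent.H81.TTK

open Finset

/-- The union bound for an independent choice. -/
theorem exists_choice {V : Type*} [Fintype V] [DecidableEq V] {I : Type*} [Fintype I]
    [DecidableEq I] (S : Finset (List V)) (q : I → List V → ℝ) (q0 : ∀ i l, 0 ≤ q i l)
    (q1 : ∀ i, ∑ l ∈ S, q i l = 1) {eps : ℝ} (heps : 0 ≤ eps)
    (hq : ∀ i, ∑ w, (∑ l ∈ S, if w ∈ l then q i l else 0) ^ 2 ≤ eps) (Y : Finset V)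
    (hsmall : (Fintype.card I : ℝ) ^ 2 * eps +
      (Fintype.card I : ℝ) * ((Y.card : ℝ) * Real.sqrt eps) < 1) :
    ∃ F : I → List V, (∀ i, q i (F i) ≠ 0) ∧
      (∀ i i', i ≠ i' → ∀ w, w ∈ F i → w ∉ F i') ∧ ∀ i, ∀ w ∈ Y, w ∉ F i := by
  classical
  by_contra hcon
  push_neg at hcon
  set a : I → V → ℝ := fun i w => ∑ l ∈ S, if w ∈ l then q i l else 0 with ha
  have ha0 : ∀ i w, 0 ≤ a i w := fun i w => sum_nonneg fun l _ => by
    split_ifs
    exacts [q0 i l, le_rfl]
  set c : V → List V → ℝ := fun w l => if w ∈ l then 1 else 0 with hc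
  have hc0 : ∀ w l, 0 ≤ c w l := fun w l => by
    simp only [hc]
    split_ifs <;> norm_num
  have hac : ∀ i w, ∑ l ∈ S, q i l * c w l = a i w := fun i w =>
    sum_congr rfl fun l _ => by simp only [hc, mul_ite, mul_one, mul_zero]
  set Wt : (I → List V) → ℝ := fun F => ∏ x, q x (F x) with hWt
  have hWt0 : ∀ F, 0 ≤ Wt F := fun F => prod_nonneg fun x _ => q0 x (F x)
  -- marginals
  have hmarg : ∀ u : I → List V → ℝ, ∑ F ∈ Fintype.piFinset (fun _ : I => S),
      Wt F * ∏ x, u x (F x) = ∏ x, ∑ l ∈ S, q x l * u x l := by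
    intro u
    rw [prod_univ_sum]
    exact sum_congr rfl fun F _ => by rw [hWt, ← prod_mul_distrib]
  have h1 : ∑ F ∈ Fintype.piFinset (fun _ : I => S), Wt F = 1 := by
    have := hmarg fun _ _ => 1
    simp only [prod_const_one, mul_one, q1] at this
    exact this
  have h2 : ∀ i w, ∑ F ∈ Fintype.piFinset (fun _ : I => S), Wt F * c w (F i) = a i w := by
    intro i w
    have := hmarg fun x l => if x = i then c w l else 1
    have e1 : ∀ F : I → List V, ∏ x, (if x = i then c w (F x) else 1) = c w (F i) := fun F => by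
      rw [prod_ite_eq' univ i, if_pos (mem_univ i)]
    simp only [e1] at this
    rw [this]
    have e2 : ∀ x, ∑ l ∈ S, q x l * (if x = i then c w l else 1) =
        if x = i then a x w else 1 := by
      intro x
      by_cases hx : x = i
      · simp only [if_pos hx, hac]
      · simp only [if_neg hx, mul_one, q1]
    rw [prod_congr rfl fun x _ => e2 x, prod_ite_eq' univ i, if_pos (mem_univ i)]
  have h3 : ∀ i i' w, i ≠ i' → ∑ F ∈ Fintype.piFinset (fun _ : I => S),
      Wt F * (c w (F i) * c w (F i')) = a i w * a i' w := by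
    intro i i' w hii
    have := hmarg fun x l => (if x = i then c w l else 1) * (if x = i' then c w l else 1)
    have e1 : ∀ F : I → List V, ∏ x, ((if x = i then c w (F x) else 1) *
        (if x = i' then c w (F x) else 1)) = c w (F i) * c w (F i') := fun F => by
      rw [prod_mul_distrib, prod_ite_eq' univ i, if_pos (mem_univ i), prod_ite_eq' univ i',
        if_pos (mem_univ i')]
    simp only [e1] at this
    rw [this]
    have e2 : ∀ x, ∑ l ∈ S, q x l * ((if x = i then c w l else 1) * (if x = i' then c w l else 1)) =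
        (if x = i then a x w else 1) * (if x = i' then a x w else 1) := by
      intro x
      by_cases hx : x = i
      · have hx' : x ≠ i' := fun h => hii (hx.symm.trans h)
        simp only [if_pos hx, if_neg hx', mul_one, hac]
      · by_cases hx' : x = i'
        · simp only [if_neg hx, if_pos hx', one_mul, hac]
        · simp only [if_neg hx, if_neg hx', mul_one, q1]
    rw [prod_congr rfl fun x _ => e2 x, prod_mul_distrib, prod_ite_eq' univ i,
      if_pos (mem_univ i), prod_ite_eq' univ i', if_pos (mem_univ i')]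
  -- the number of bad events
  have hbad : ∀ F ∈ Fintype.piFinset (fun _ : I => S), Wt F ≤ Wt F *
      ((∑ i, ∑ i', if i ≠ i' then ∑ w, c w (F i) * c w (F i') else 0) +
        ∑ i, ∑ w ∈ Y, c w (F i)) := by
    intro F _
    have n1 : ∀ i i', 0 ≤ (if i ≠ i' then ∑ w, c w (F i) * c w (F i') else 0) := fun i i' => by
      split_ifs
      · exact sum_nonneg fun w _ => mul_nonneg (hc0 _ _) (hc0 _ _)
      · exact le_rfl
    have n2 : 0 ≤ ∑ i, ∑ i', (if i ≠ i' then ∑ w, c w (F i) * c w (F i') else 0) :=
      sum_nonneg fun i _ => sum_nonneg fun i' _ => n1 i i'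
    have n3 : 0 ≤ ∑ i, ∑ w ∈ Y, c w (F i) := sum_nonneg fun i _ => sum_nonneg fun w _ => hc0 _ _
    by_cases hW : Wt F = 0
    · rw [hW, zero_mul]
    · have hne : ∀ i, q i (F i) ≠ 0 := fun i h => hW (prod_eq_zero (mem_univ i) h)
      refine le_mul_of_one_le_right (hWt0 F) ?_
      by_cases hdis : ∀ i i', i ≠ i' → ∀ w, w ∈ F i → w ∉ F i'
      · obtain ⟨i, w, hwY, hw⟩ := hcon F hne hdis
        have : (1 : ℝ) ≤ ∑ i, ∑ w ∈ Y, c w (F i) := by
          have e : c w (F i) = 1 := by simp only [hc, if_pos hw]
          calc (1 : ℝ) = c w (F i) := e.symm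
            _ ≤ ∑ w ∈ Y, c w (F i) := single_le_sum (fun w _ => hc0 w (F i)) hwY
            _ ≤ _ := single_le_sum (f := fun i => ∑ w ∈ Y, c w (F i))
                (fun i _ => sum_nonneg fun w _ => hc0 w (F i)) (mem_univ i)
        linarith
      · push_neg at hdis
        obtain ⟨i, i', hii, w, hw, hw'⟩ := hdis
        have : (1 : ℝ) ≤ ∑ i, ∑ i', (if i ≠ i' then ∑ w, c w (F i) * c w (F i') else 0) := by
          have e : c w (F i) * c w (F i') = 1 := by simp only [hc, if_pos hw, if_pos hw', mul_one]
          calc (1 : ℝ) = c w (F i) * c w (F i') := e.symm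
            _ ≤ ∑ w, c w (F i) * c w (F i') :=
                single_le_sum (f := fun w => c w (F i) * c w (F i'))
                  (fun w _ => mul_nonneg (hc0 _ _) (hc0 _ _)) (mem_univ w)
            _ = (if i ≠ i' then ∑ w, c w (F i) * c w (F i') else 0) := (if_pos hii).symm
            _ ≤ ∑ i', (if i ≠ i' then ∑ w, c w (F i) * c w (F i') else 0) :=
                single_le_sum (f := fun i' => if i ≠ i' then ∑ w, c w (F i) * c w (F i') else 0)
                  (fun i' _ => n1 i i') (mem_univ i')
            _ ≤ _ := single_le_sum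
                (f := fun i => ∑ i', (if i ≠ i' then ∑ w, c w (F i) * c w (F i') else 0))
                (fun i _ => sum_nonneg fun i' _ => n1 i i') (mem_univ i)
        linarith
  have hsum := sum_le_sum hbad
  rw [h1] at hsum
  have e5 : ∑ F ∈ Fintype.piFinset (fun _ : I => S), Wt F *
      ((∑ i, ∑ i', if i ≠ i' then ∑ w, c w (F i) * c w (F i') else 0) +
        ∑ i, ∑ w ∈ Y, c w (F i)) =
      (∑ i, ∑ i', if i ≠ i' then ∑ w, a i w * a i' w else 0) + ∑ i, ∑ w ∈ Y, a i w := by
    simp only [mul_add, sum_add_distrib]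
    congr 1
    · simp only [mul_sum]
      rw [sum_comm]
      refine sum_congr rfl fun i _ => ?_
      rw [sum_comm]
      refine sum_congr rfl fun i' _ => ?_
      by_cases hii : i ≠ i'
      · simp only [if_pos hii, mul_sum]
        rw [sum_comm]
        exact sum_congr rfl fun w _ => h3 i i' w hii
      · simp only [if_neg hii, mul_zero, sum_const_zero]
    · simp only [mul_sum]
      rw [sum_comm]
      refine sum_congr rfl fun i _ => ?_
      rw [sum_comm]
      exact sum_congr rfl fun w _ => h2 i w
  rw [e5] at hsum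
  have hb1 : ∀ i i', (if i ≠ i' then ∑ w, a i w * a i' w else 0) ≤ eps := by
    intro i i'
    split_ifs
    · have h4 := sum_mul_sq_le_sq_mul_sq univ (a i) (a i')
      have h5 : (∑ w, a i w * a i' w) ^ 2 ≤ eps ^ 2 := by
        refine h4.trans ?_
        rw [sq eps]
        exact mul_le_mul (hq i) (hq i') (sum_nonneg fun w _ => sq_nonneg _) heps
      exact abs_le_of_sq_le_sq' h5 heps |>.2
    · exact heps
  have hb2 : ∀ i w, a i w ≤ Real.sqrt eps := by
    intro i w
    refine Real.le_sqrt_of_sq_le (le_trans ?_ (hq i))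
    exact single_le_sum (f := fun w => a i w ^ 2) (fun w _ => sq_nonneg _) (mem_univ w)
  have hb3 : ∑ i, ∑ i', (if i ≠ i' then ∑ w, a i w * a i' w else 0) ≤
      (Fintype.card I : ℝ) ^ 2 * eps := by
    calc _ ≤ ∑ _i : I, ∑ _i' : I, eps := sum_le_sum fun i _ => sum_le_sum fun i' _ => hb1 i i'
      _ = _ := by
        simp only [sum_const, card_univ, nsmul_eq_mul]
        ring
  have hb4 : ∑ i, ∑ w ∈ Y, a i w ≤ (Fintype.card I : ℝ) * ((Y.card : ℝ) * Real.sqrt eps) := by
    calc _ ≤ ∑ _i : I, ∑ _w ∈ Y, Real.sqrt eps :=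
          sum_le_sum fun i _ => sum_le_sum fun w _ => hb2 i w
      _ = _ := by
        simp only [sum_const, card_univ, nsmul_eq_mul]
  linarith

/-- Shortening a walk to a path. -/
theorem shorten {V : Type*} [DecidableEq V] {adj : V → V → Prop} (c : List V) (hne : c ≠ [])
    (hc : List.IsChain adj c) : ∃ c' : List V, c'.Nodup ∧ (∀ x ∈ c', x ∈ c) ∧
      c'.head? = c.head? ∧ c'.getLast? = c.getLast? ∧ List.IsChain adj c' := by
  induction c with
  | nil => exact absurd rfl hne
  | cons x c ih =>
    by_cases hcn : c = []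
    · subst hcn
      exact ⟨[x], by simp, by simp, rfl, rfl, by simp⟩
    · obtain ⟨c', h1, h2, h3, h4, h5⟩ := ih hcn hc.tail
      by_cases hx : x ∈ c'
      · obtain ⟨s, r, hsr⟩ := List.append_of_mem hx
        refine ⟨x :: r, ?_, ?_, rfl, ?_, ?_⟩
        · rw [hsr] at h1
          exact (List.nodup_append.1 h1).2.1
        · intro y hy
          rcases List.mem_cons.1 hy with rfl | hy
          · exact List.mem_cons_self
          · exact List.mem_cons_of_mem _ (h2 y (by rw [hsr]; simp [hy]))
        · rw [hsr] at h4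
          obtain ⟨b, c2, rfl⟩ := List.exists_cons_of_ne_nil hcn
          rw [List.getLast?_append] at h4
          rw [List.getLast?_cons_cons, ← h4]
          cases hgl : (x :: r).getLast? with
          | none => simp at hgl
          | some a => rfl
        · rw [hsr] at h5
          exact (List.isChain_append.1 h5).2.1
      · have hc'n : c' ≠ [] := by
          rintro rfl
          obtain ⟨b, c2, rfl⟩ := List.exists_cons_of_ne_nil hcn
          simp at h3
        obtain ⟨b, c2, rfl⟩ := List.exists_cons_of_ne_nil hcn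
        obtain ⟨b', c3, rfl⟩ := List.exists_cons_of_ne_nil hc'n
        have hb : b' = b := by simpa using h3
        subst hb
        refine ⟨x :: b' :: c3, ?_, ?_, rfl, ?_, ?_⟩
        · exact List.nodup_cons.2 ⟨hx, h1⟩
        · intro y hy
          rcases List.mem_cons.1 hy with rfl | hy
          · exact List.mem_cons_self
          · exact List.mem_cons_of_mem _ (h2 y hy)
        · rw [List.getLast?_cons_cons, List.getLast?_cons_cons, h4]
        · rw [List.isChain_cons_cons]
          exact ⟨(List.isChain_cons_cons.1 hc).1, h5⟩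

section top

variable {V : Type*} [Fintype V] [DecidableEq V] {adj : V → V → Prop} {X : Finset V}

theorem sum_singles {t : ℕ} {v : V} {h : List V → ℝ}
    (hh : h ∈ Hs adj (fun _ _ => True) X t v) : ∑ a, h [a] = t := by
  classical
  induction t generalizing v h with
  | zero =>
    rw [hs_zero, Set.mem_singleton_iff] at hh
    rw [hh]
    simp [one]
  | succ t ih =>
    obtain ⟨α, k, h0, h1, h2, h3, h4, h5⟩ := hh
    simp only [h5, if_true]
    rw [sum_comm]
    have : ∀ w, ∑ a, α w * pre w (k w) [a] = α w * ((t : ℝ) + 1) := by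
      intro w
      rw [← mul_sum]
      congr 1
      simp only [pre_cons, sum_add_distrib]
      rw [ih (h3 w trivial), sum_ite_eq' univ w, if_pos (mem_univ w), hs_nil (h3 w trivial)]
    rw [sum_congr rfl fun w _ => this w, ← sum_mul, h1]
    push_cast
    ring

theorem top_energy {N t : ℕ} {k : ℝ} (hk : 0 ≤ k) {v : V} {h : List V → ℝ}
    (hh : h ∈ Hs adj (fun _ _ => True) X t v) :
    (t : ℝ) ^ 2 ≤ (Fintype.card V : ℝ) * ip (N + 1) k h h := by
  have h1 : ∑ a, h [a] ^ 2 ≤ ip (N + 1) k h h := by
    rw [ip_succ]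
    refine sum_le_sum fun a _ => ?_
    rw [ip0_eq]
    have := mul_nonneg hk (ip_self_nonneg (N := N) hk (fun Z => h (a :: Z)))
    nlinarith
  have h2 : (∑ a, h [a]) ^ 2 ≤ (Fintype.card V : ℝ) * ∑ a, h [a] ^ 2 := by
    have := sum_mul_sq_le_sq_mul_sq (univ : Finset V) (fun _ => (1 : ℝ)) (fun a => h [a])
    simpa using this
  rw [sum_singles hh] at h2
  exact h2.trans (mul_le_mul_of_nonneg_left h1 (Nat.cast_nonneg _))

end top

end Pool.Agent.H81.TTK
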