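import Pool.Agent.H81.TTK.Paths

/-!
# Choice of a target word
-/

set_option autoImplicit false

namespace Pool.Agent.H81.TTK

open Finset

variable {V : Type*} [Fintype V] [DecidableEq V]

theorem ip_sub_self (N : ℕ) (k : ℝ) (f g : List V → ℝ) :
    ip N k (fun Z => f Z - g Z) (fun Z => f Z - g Z) =
      ip N k f f + ip N k g g - 2 * ip N k f g := by
  simp only [ip, mul_sum, ← sum_add_distrib, ← sum_sub_distrib]
  exact sum_congr rfl fun Z _ => by ring

/-- Lemma B. -/
theorem lemB {N : ℕ} {k M lam th eps : ℝ} (hk : 0 < k) (hM : 0 < M) (heps : 0 < eps)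
    {hx : List V → ℝ} (hx0 : ∀ Z, 0 ≤ hx Z) (hxM : ip (N + 1) k hx hx = M ^ 2)
    {ι : Type*} [Fintype ι] (y : ι → V) (h : ι → List V → ℝ)
    (hlong : ∀ i Z, N < Z.length → h i Z = 0) (h0 : ∀ i Z, 0 ≤ h i Z)
    (hhM : ∀ i, ip (N + 1) k (h i) (h i) ≤ M ^ 2)
    (hphi : ∀ i, (1 - lam) * M ^ 2 ≤ ip (N + 1) k (h i) hx)
    (hheavy : ∀ i, ip0 N k (fun Z => hx (y i :: Z)) (fun Z => hx (y i :: Z)) ≤ (th * M) ^ 2)
    (hsmall : (Fintype.card ι : ℝ) * (8 * lam + 4 / (eps * k) + th ^ 2) < 1) :
    ∃ z Z, 0 < hx (z :: Z) ∧ (z :: Z).length ≤ N + 1 ∧ (∀ i, z ≠ y i) ∧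
      ∀ i, 0 < h i (z :: Z) ∧ ∑ w, h i (w :: z :: Z) ^ 2 ≤ eps * h i (z :: Z) ^ 2 := by
  classical
  by_contra hcon
  push_neg at hcon
  -- pointwise bound
  have hpt : ∀ Z ∈ W V (N + 1), wt k Z * (hx Z * hx Z) ≤ ∑ i,
      (4 * (wt k Z * ((h i Z - hx Z) * (h i Z - hx Z))) +
        4 / eps * (wt k Z * ∑ w, h i (w :: Z) ^ 2) +
        (if Z.head? = some (y i) then wt k Z * (hx Z * hx Z) else 0)) := by
    intro Z hZ
    have hterm : ∀ i, 0 ≤ 4 * (wt k Z * ((h i Z - hx Z) * (h i Z - hx Z))) +
        4 / eps * (wt k Z * ∑ w, h i (w :: Z) ^ 2) +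
        (if Z.head? = some (y i) then wt k Z * (hx Z * hx Z) else 0) := by
      intro i
      have hw := wt_nonneg hk.le Z
      have h1 : 0 ≤ ∑ w, h i (w :: Z) ^ 2 := sum_nonneg fun w _ => sq_nonneg _
      refine add_nonneg (add_nonneg ?_ ?_) ?_
      · exact mul_nonneg (by norm_num) (mul_nonneg hw (mul_self_nonneg _))
      · exact mul_nonneg (by positivity) (mul_nonneg hw h1)
      · split_ifs
        · exact mul_nonneg hw (mul_self_nonneg _)
        · exact le_rfl
    have hT0 : 0 ≤ ∑ i, (4 * (wt k Z * ((h i Z - hx Z) * (h i Z - hx Z))) +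
        4 / eps * (wt k Z * ∑ w, h i (w :: Z) ^ 2) +
        (if Z.head? = some (y i) then wt k Z * (hx Z * hx Z) else 0)) :=
      sum_nonneg fun i _ => hterm i
    cases Z with
    | nil =>
      rw [show wt k ([] : List V) = 0 from if_pos rfl, zero_mul] at *
      exact hT0
    | cons z Z =>
      by_cases hpos : 0 < hx (z :: Z)
      · -- there is a bad index
        have hbad : ∃ i, z = y i ∨ (0 < h i (z :: Z) →
            eps * h i (z :: Z) ^ 2 < ∑ w, h i (w :: z :: Z) ^ 2) := by
          by_contra hno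
          push_neg at hno
          obtain ⟨i, hi⟩ := hcon z Z hpos (mem_W.1 hZ) fun i => (hno i).1
          exact absurd (hi (hno i).2.1) (not_lt.2 (hno i).2.2)
        obtain ⟨i, hi⟩ := hbad
        refine le_trans ?_ (single_le_sum (fun i _ => hterm i) (mem_univ i))
        have hw := wt_nonneg hk.le (z :: Z)
        have h1 : 0 ≤ ∑ w, h i (w :: z :: Z) ^ 2 := sum_nonneg fun w _ => sq_nonneg _
        have n1 : 0 ≤ 4 * (wt k (z :: Z) * ((h i (z :: Z) - hx (z :: Z)) *
            (h i (z :: Z) - hx (z :: Z)))) :=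
          mul_nonneg (by norm_num) (mul_nonneg hw (mul_self_nonneg _))
        have n2 : 0 ≤ 4 / eps * (wt k (z :: Z) * ∑ w, h i (w :: z :: Z) ^ 2) :=
          mul_nonneg (by positivity) (mul_nonneg hw h1)
        have n3 : 0 ≤ (if (z :: Z).head? = some (y i) then
            wt k (z :: Z) * (hx (z :: Z) * hx (z :: Z)) else 0) := by
          split_ifs
          · exact mul_nonneg hw (mul_self_nonneg _)
          · exact le_rfl
        rcases hi with hi | hi
        · have : (z :: Z).head? = some (y i) := by rw [List.head?_cons, hi]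
          rw [if_pos this]
          linarith
        · by_cases hc : hx (z :: Z) ≤ 2 * h i (z :: Z)
          · have hp : 0 < h i (z :: Z) := by linarith
            have h2 := hi hp
            have h3 : hx (z :: Z) * hx (z :: Z) ≤ 4 / eps * ∑ w, h i (w :: z :: Z) ^ 2 := by
              rw [div_mul_eq_mul_div, le_div_iff₀ heps]
              have h6 : hx (z :: Z) * hx (z :: Z) ≤ 4 * h i (z :: Z) ^ 2 := by
                nlinarith [hx0 (z :: Z)]
              have h7 := mul_le_mul_of_nonneg_left h6 heps.le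
              linarith
            have h4 := mul_le_mul_of_nonneg_left h3 hw
            have h5 : wt k (z :: Z) * (4 / eps * ∑ w, h i (w :: z :: Z) ^ 2) =
              4 / eps * (wt k (z :: Z) * ∑ w, h i (w :: z :: Z) ^ 2) := by ring
            rw [h5] at h4
            linarith
          · push_neg at hc
            have h3 : hx (z :: Z) * hx (z :: Z) ≤ 4 * ((h i (z :: Z) - hx (z :: Z)) *
                (h i (z :: Z) - hx (z :: Z))) := by
              nlinarith [h0 i (z :: Z)]
            have h4 := mul_le_mul_of_nonneg_left h3 hw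
            have h5 : wt k (z :: Z) * (4 * ((h i (z :: Z) - hx (z :: Z)) *
                (h i (z :: Z) - hx (z :: Z)))) = 4 * (wt k (z :: Z) *
                ((h i (z :: Z) - hx (z :: Z)) * (h i (z :: Z) - hx (z :: Z)))) := by ring
            linarith
      · have hz : hx (z :: Z) = 0 := le_antisymm (not_lt.1 hpos) (hx0 _)
        have e0 : wt k (z :: Z) * (hx (z :: Z) * hx (z :: Z)) = 0 := by
          rw [hz, zero_mul, mul_zero]
        exact e0.le.trans hT0
  have hsum := sum_le_sum hpt
  rw [sum_comm] at hsum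
  have hi : ∀ i, ∑ Z ∈ W V (N + 1), (4 * (wt k Z * ((h i Z - hx Z) * (h i Z - hx Z))) +
        4 / eps * (wt k Z * ∑ w, h i (w :: Z) ^ 2) +
        (if Z.head? = some (y i) then wt k Z * (hx Z * hx Z) else 0)) ≤
      (8 * lam + 4 / (eps * k) + th ^ 2) * M ^ 2 := by
    intro i
    rw [sum_add_distrib, sum_add_distrib]
    have a1 : ∑ Z ∈ W V (N + 1), 4 * (wt k Z * ((h i Z - hx Z) * (h i Z - hx Z))) ≤
        8 * lam * M ^ 2 := by
      rw [← mul_sum]
      have : ∑ Z ∈ W V (N + 1), wt k Z * ((h i Z - hx Z) * (h i Z - hx Z)) =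
        ip (N + 1) k (fun Z => h i Z - hx Z) (fun Z => h i Z - hx Z) := rfl
      rw [this, ip_sub_self, hxM]
      nlinarith [hhM i, hphi i]
    have a2 : ∑ Z ∈ W V (N + 1), 4 / eps * (wt k Z * ∑ w, h i (w :: Z) ^ 2) ≤
        4 / (eps * k) * M ^ 2 := by
      rw [← mul_sum]
      have b1 : ∑ Z ∈ W V (N + 1), wt k Z * ∑ w, h i (w :: Z) ^ 2 =
          ∑ Z ∈ W V N, wt k Z * ∑ w, h i (w :: Z) ^ 2 := by
        refine (sum_subset (fun Z hZ => mem_W.2 (by have := mem_W.1 hZ; omega)) ?_).symm
        intro Z _ hZ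
        rw [mem_W, not_le] at hZ
        rw [sum_eq_zero, mul_zero]
        intro w _
        rw [hlong i (w :: Z) (by rw [List.length_cons]; omega)]
        simp
      have b2 : k * ∑ Z ∈ W V N, wt k Z * ∑ w, h i (w :: Z) ^ 2 ≤ ip (N + 1) k (h i) (h i) := by
        rw [ip_succ]
        simp only [ip0]
        rw [sum_comm, mul_sum]
        refine sum_le_sum fun Z _ => ?_
        by_cases hZ : Z = []
        · subst hZ
          rw [show wt k ([] : List V) = 0 from if_pos rfl, zero_mul, mul_zero]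
          exact sum_nonneg fun w _ => mul_nonneg (pow_nonneg hk.le _) (mul_self_nonneg _)
        · refine le_of_eq ?_
          rw [wt, if_neg hZ, mul_sum, mul_sum]
          refine sum_congr rfl fun w _ => ?_
          have : 0 < Z.length := List.length_pos_iff.2 hZ
          obtain ⟨m, hm⟩ : ∃ m, Z.length = m + 1 := ⟨Z.length - 1, by omega⟩
          rw [hm, Nat.add_sub_cancel, pow_succ]
          ring
      have b3 := b2.trans (hhM i)
      rw [b1]
      have b4 : ∑ Z ∈ W V N, wt k Z * ∑ w, h i (w :: Z) ^ 2 ≤ M ^ 2 / k := by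
        rw [le_div_iff₀ hk]
        linarith
      calc 4 / eps * ∑ Z ∈ W V N, wt k Z * ∑ w, h i (w :: Z) ^ 2 ≤ 4 / eps * (M ^ 2 / k) :=
            mul_le_mul_of_nonneg_left b4 (by positivity)
        _ = _ := by
            field_simp
    have a3 : ∑ Z ∈ W V (N + 1), (if Z.head? = some (y i) then wt k Z * (hx Z * hx Z) else 0) ≤
        th ^ 2 * M ^ 2 := by
      rw [sum_W_succ]
      have : ∀ a, ∑ Z ∈ W V N, (if (a :: Z).head? = some (y i) then
          wt k (a :: Z) * (hx (a :: Z) * hx (a :: Z)) else 0) =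
          if a = y i then ip0 N k (fun Z => hx (y i :: Z)) (fun Z => hx (y i :: Z)) else 0 := by
        intro a
        by_cases ha : a = y i
        · rw [if_pos ha]
          unfold ip0
          refine sum_congr rfl fun Z _ => ?_
          rw [List.head?_cons, ha, if_pos rfl, wt_cons]
        · rw [if_neg ha]
          refine sum_eq_zero fun Z _ => ?_
          rw [List.head?_cons, if_neg]
          intro hh
          exact ha (Option.some_inj.1 hh)
      rw [sum_congr rfl fun a _ => this a, sum_ite_eq' univ (y i), if_pos (mem_univ _)]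
      simp only [List.head?_nil, reduceCtorEq, if_false, zero_add]
      have := hheavy i
      nlinarith
    linarith
  have hfin : M ^ 2 ≤ (Fintype.card ι : ℝ) * ((8 * lam + 4 / (eps * k) + th ^ 2) * M ^ 2) := by
    have h1 : ip (N + 1) k hx hx ≤ ∑ _i : ι, (8 * lam + 4 / (eps * k) + th ^ 2) * M ^ 2 :=
      hsum.trans (sum_le_sum fun i _ => hi i)
    rw [hxM, sum_const, nsmul_eq_mul, card_univ] at h1
    exact h1
  have hM2 : 0 < M ^ 2 := by positivity
  nlinarith

end Pool.Agent.H81.TTK
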