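import Pool.Agent.H81.TTK.Norm

/-!
# Compactness, convexity, minimal vectors
-/

set_option autoImplicit false

namespace Pool.Agent.H81.TTK

open Finset

variable {V : Type*} [Fintype V] [DecidableEq V] {adj : V → V → Prop} {P : V → ℕ → Prop}
  {X : Finset V}

omit [Fintype V] in
theorem pre_comb (w : V) (a b : ℝ) (h h' : List V → ℝ) (Z : List V) :
    pre w (fun Z => a * h Z + b * h' Z) Z = a * pre w h Z + b * pre w h' Z := by
  cases Z with
  | nil => simp [pre_nil]
  | cons c Z =>
    simp only [pre_cons]
    split_ifs <;> ring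

theorem hs_compact (t : ℕ) (v : V) : IsCompact (Hs adj P X t v) := by
  classical
  induction t generalizing v with
  | zero =>
    rw [hs_zero]
    exact isCompact_singleton
  | succ t ih =>
    set S1 : Set (V → ℝ) := stdSimplex ℝ V ∩ {α | ∀ w, ¬ (adj v w ∧ w ∉ X) → α w = 0} with hS1
    have hS1c : IsCompact S1 := by
      refine (isCompact_stdSimplex ℝ V).inter_right ?_
      have : {α : V → ℝ | ∀ w, ¬ (adj v w ∧ w ∉ X) → α w = 0} =
          ⋂ w, ⋂ (_ : ¬ (adj v w ∧ w ∉ X)), {α : V → ℝ | α w = 0} := by
        ext α
        simp only [Set.mem_setOf_eq, Set.mem_iInter]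
      rw [this]
      exact isClosed_iInter fun w => isClosed_iInter fun _ =>
        isClosed_singleton.preimage (continuous_apply w)
    set S2 : Set (V → List V → ℝ) :=
      Set.pi Set.univ (fun w => if P w t then Hs adj P X t w else {one}) with hS2
    have hS2c : IsCompact S2 := by
      refine isCompact_univ_pi fun w => ?_
      by_cases hw : P w t
      · rw [if_pos hw]
        exact ih w
      · rw [if_neg hw]
        exact isCompact_singleton
    have hΦ : Continuous (fun p : (V → ℝ) × (V → List V → ℝ) => (fun Z : List V =>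
        ∑ w, p.1 w * (if P w t then pre w (p.2 w) Z else one Z))) := by
      refine continuous_pi fun Z => continuous_finsetSum _ fun w _ => ?_
      refine ((continuous_apply w).comp continuous_fst).mul ?_
      by_cases hw : P w t
      · simp only [if_pos hw]
        have h1 : ∀ Y : List V, Continuous (fun p : (V → ℝ) × (V → List V → ℝ) => p.2 w Y) :=
          fun Y => (continuous_apply Y).comp ((continuous_apply w).comp continuous_snd)
        cases Z with
        | nil =>
          simp only [pre_nil]
          exact h1 []
        | cons a Z =>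
          simp only [pre_cons]
          refine (h1 _).add ?_
          by_cases ha : a = w
          · simp only [if_pos ha]
            exact h1 Z
          · simp only [if_neg ha]
            exact continuous_const
      · simp only [if_neg hw]
        exact continuous_const
    have hc := (hS1c.prod hS2c).image hΦ
    convert hc using 1
    ext h
    constructor
    · rintro ⟨α, k, h0, h1, h2, h3, h4, h5⟩
      refine ⟨(α, k), ⟨⟨⟨h0, h1⟩, fun w hw => ?_⟩, fun w _ => ?_⟩, funext fun Z => (h5 Z).symm⟩
      · by_contra hne
        exact hw (h2 w hne)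
      · show k w ∈ (if P w t then Hs adj P X t w else {one} : Set (List V → ℝ))
        by_cases hw : P w t
        · rw [if_pos hw]
          exact h3 w hw
        · rw [if_neg hw]
          exact h4 w hw
    · rintro ⟨⟨α, k⟩, ⟨⟨⟨h0, h1⟩, h2⟩, h3⟩, rfl⟩
      refine ⟨α, k, h0, h1, fun w hw => ?_, fun w hw => ?_, fun w hw => ?_, fun Z => rfl⟩
      · by_contra hne
        exact hw (h2 w hne)
      · have := h3 w (Set.mem_univ w)
        dsimp only at this
        rwa [if_pos hw] at this
      · have := h3 w (Set.mem_univ w)
        dsimp only at this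
        rwa [if_neg hw] at this

theorem hs_convex {t : ℕ} {v : V} {h h' : List V → ℝ} (hh : h ∈ Hs adj P X t v)
    (hh' : h' ∈ Hs adj P X t v) {a b : ℝ} (ha : 0 ≤ a) (hb : 0 ≤ b) (hab : a + b = 1) :
    (fun Z => a * h Z + b * h' Z) ∈ Hs adj P X t v := by
  classical
  induction t generalizing v h h' a b with
  | zero =>
    rw [hs_zero, Set.mem_singleton_iff] at *
    rw [hh, hh']
    funext Z
    rw [← add_mul, hab, one_mul]
  | succ t ih =>
    obtain ⟨α, k, h0, h1, h2, h3, h4, h5⟩ := hh
    obtain ⟨β, l, g0, g1, g2, g3, g4, g5⟩ := hh'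
    set γ : V → ℝ := fun w => a * α w + b * β w with hγ
    have hγ0 : ∀ w, 0 ≤ γ w := fun w => add_nonneg (mul_nonneg ha (h0 w)) (mul_nonneg hb (g0 w))
    refine ⟨γ, fun w => if P w t then (if γ w = 0 then k w else
      fun Z => (a * α w / γ w) * k w Z + (b * β w / γ w) * l w Z) else one, hγ0, ?_, ?_, ?_, ?_, ?_⟩
    · simp only [hγ, sum_add_distrib, ← mul_sum, h1, g1, mul_one, hab]
    · intro w hw
      by_cases hα : α w = 0
      · by_cases hβ : β w = 0
        · exact absurd (by simp [hγ, hα, hβ]) hw
        · exact g2 w hβ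
      · exact h2 w hα
    · intro w hw
      dsimp only
      rw [if_pos hw]
      by_cases hγw : γ w = 0
      · rw [if_pos hγw]
        exact h3 w hw
      · rw [if_neg hγw]
        refine ih (h3 w hw) (g3 w hw) (div_nonneg (mul_nonneg ha (h0 w)) (hγ0 w))
          (div_nonneg (mul_nonneg hb (g0 w)) (hγ0 w)) ?_
        rw [← add_div]
        exact div_self hγw
    · intro w hw
      dsimp only
      rw [if_neg hw]
    · intro Z
      dsimp only
      rw [h5, g5, mul_sum, mul_sum, ← sum_add_distrib]
      refine sum_congr rfl fun w _ => ?_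
      by_cases hw : P w t
      · simp only [if_pos hw]
        by_cases hγw : γ w = 0
        · have e1 : a * α w = 0 := by
            have := mul_nonneg ha (h0 w)
            have := mul_nonneg hb (g0 w)
            have : a * α w + b * β w = 0 := hγw
            linarith
          have e2 : b * β w = 0 := by
            have : a * α w + b * β w = 0 := hγw
            linarith
          rw [hγw, ← mul_assoc, ← mul_assoc, e1, e2]
          ring
        · simp only [if_neg hγw]
          rw [pre_comb]
          field_simp
      · simp only [if_neg hw, hγ]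
        ring

theorem hs_nonempty (hne : ∀ v, ∃ w, adj v w ∧ w ∉ X) (t : ℕ) (v : V) :
    (Hs adj P X t v).Nonempty := by
  classical
  induction t generalizing v with
  | zero => exact ⟨one, rfl⟩
  | succ t ih =>
    obtain ⟨w0, hw0⟩ := hne v
    choose k hk using ih
    refine ⟨_, ⟨Pi.single w0 1, fun w => if P w t then k w else one, fun w => ?_, ?_, fun w hw => ?_,
      fun w hw => ?_, fun w hw => ?_, fun Z => rfl⟩⟩
    · by_cases h : w = w0
      · subst h
        simp
      · simp [h]
    · simp
    · by_cases h : w = w0
      · rw [h]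
        exact hw0
      · exact absurd (by simp [h]) hw
    · dsimp only
      rw [if_pos hw]
      exact hk w
    · dsimp only
      rw [if_neg hw]

/-- The minimal vector. -/
theorem exists_min (hne : ∀ v, ∃ w, adj v w ∧ w ∉ X) (N : ℕ) {k : ℝ} (hk : 0 ≤ k) (t : ℕ) (v : V) :
    ∃ h ∈ Hs adj P X t v, ∀ h' ∈ Hs adj P X t v, ip N k h h ≤ ip N k h' h := by
  have hcont : Continuous (fun h : List V → ℝ => ip N k h h) := by
    unfold ip
    exact continuous_finsetSum _ fun Z _ => continuous_const.mul
      ((continuous_apply Z).mul (continuous_apply Z))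
  obtain ⟨h, hh, hmin⟩ := (hs_compact (adj := adj) (P := P) (X := X) t v).exists_isMinOn
    (hs_nonempty hne t v) hcont.continuousOn
  refine ⟨h, hh, fun h' hh' => ?_⟩
  by_contra hcon
  push_neg at hcon
  set c : ℝ := ip N k h h - ip N k h' h with hc
  have hc0 : 0 < c := by
    rw [hc]
    linarith
  set E : ℝ := ip N k (fun Z => h' Z - h Z) (fun Z => h' Z - h Z) with hE
  have hE0 : 0 ≤ E := ip_self_nonneg hk _
  have hexp : ∀ s : ℝ, ip N k (fun Z => (1 - s) * h Z + s * h' Z) (fun Z => (1 - s) * h Z + s * h' Z) =
      ip N k h h - 2 * s * c + s ^ 2 * E := by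
    intro s
    rw [hc, hE]
    simp only [ip, mul_sum, ← sum_sub_distrib, ← sum_add_distrib]
    exact sum_congr rfl fun Z _ => by ring
  set s : ℝ := min 1 (c / (E + 1)) with hs
  have hs0 : 0 < s := lt_min one_pos (by positivity)
  have hs1 : s ≤ 1 := min_le_left _ _
  have hs2 : s * E ≤ c := by
    have h1 : s ≤ c / (E + 1) := min_le_right _ _
    have h2 : s * (E + 1) ≤ c := by
      rwa [le_div_iff₀ (by positivity)] at h1
    nlinarith
  have h3 := hmin (hs_convex hh hh' (sub_nonneg.2 hs1) hs0.le (by ring))
  simp only [Set.mem_setOf_eq] at h3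
  have h4 := hexp s
  have h5 : ip N k h h ≤ ip N k h h - 2 * s * c + s ^ 2 * E := by
    rw [← h4]
    exact h3
  nlinarith [mul_le_mul_of_nonneg_left hs2 hs0.le, mul_pos hs0 hc0]

end Pool.Agent.H81.TTK
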