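import Pool.Agent.H81.TTK.LemA
import Pool.Agent.H81.TTK.LemB
import Pool.Agent.H81.TTK.Min

/-!
# The recursion
-/

set_option autoImplicit false

namespace Pool.Agent.H81.TTK

open Finset

section rp

variable {V : Type*} [Fintype V] [DecidableEq V] {adj : V → V → Prop} {P : V → ℕ → Prop}
  {X : Finset V}

/-- A random path from `a` to `b` (weights on the interiors) of small energy. -/
def RP (adj : V → V → Prop) (N : ℕ) (eps : ℝ) (a b : V) : Prop :=
  ∃ q : List V → ℝ, (∀ l, 0 ≤ q l) ∧ (∀ l, q l ≠ 0 → List.IsChain adj (a :: (l ++ [b]))) ∧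
    ∑ l ∈ W V N, q l = 1 ∧ ∑ w, (∑ l ∈ W V N, if w ∈ l then q l else 0) ^ 2 ≤ eps

theorem rp_of_word {N t : ℕ} (ht : t ≤ N) {eps : ℝ} {a z : V} {Z : List V} {h : List V → ℝ}
    (hh : h ∈ Hs adj P X t a) (hpos : 0 < h (z :: Z))
    (he : ∑ w, h (w :: z :: Z) ^ 2 ≤ eps * h (z :: Z) ^ 2) : RP adj N eps a z := by
  obtain ⟨q, q0, q1, q2, q3⟩ := path_weights hh z Z
  refine ⟨fun l => q l / h (z :: Z), fun l => div_nonneg (q0 l) hpos.le, fun l hl => ?_, ?_, ?_⟩
  · refine (q1 l fun h0 => hl ?_).2
    simp [h0]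
  · rw [← sum_div, q2 N ht, div_self hpos.ne']
  · have h1 : ∀ w, (∑ l ∈ W V N, if w ∈ l then q l / h (z :: Z) else 0) ^ 2 ≤
        h (w :: z :: Z) ^ 2 / h (z :: Z) ^ 2 := by
      intro w
      rw [← div_pow]
      refine pow_le_pow_left₀ (sum_nonneg fun l _ => ?_) ?_ 2
      · split_ifs
        · exact div_nonneg (q0 l) hpos.le
        · exact le_rfl
      · rw [← q3 N ht w, sum_div]
        refine sum_le_sum fun l _ => ?_
        split_ifs with hw
        · refine div_le_div_of_nonneg_right ?_ hpos.le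
          have : (1 : ℝ) ≤ (l.count w : ℝ) := by exact_mod_cast List.one_le_count_iff.2 hw
          nlinarith [q0 l]
        · exact div_nonneg (mul_nonneg (q0 l) (Nat.cast_nonneg _)) hpos.le
    refine (sum_le_sum fun w _ => h1 w).trans ?_
    rw [← sum_div, div_le_iff₀ (by positivity)]
    exact he

end rp

theorem num_contra {lam M m m' k k' th s : ℝ} (hlam : 0 < lam) (hm : 0 < m) (hmM : m ≤ M)
    (hk : 0 ≤ k) (hm' : 0 ≤ m') (hs : s ≤ m')
    (hth : (1 + Real.sqrt k * M) * th = lam * M / 4)
    (h1 : 2 * m' * (1 + Real.sqrt k') ≤ lam * m / 4)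
    (h2 : 2 * m' * (Real.sqrt k' * (1 + Real.sqrt k)) ≤ lam / 4)
    (h : lam * M ≤ (m' + s) * (1 + Real.sqrt k' * (M + (1 + Real.sqrt k * M))) +
      (1 + Real.sqrt k * M) * th) : False := by
  have hM : 0 < M := by linarith
  have a0 := Real.sqrt_nonneg k
  have a1 := Real.sqrt_nonneg k'
  have e : 1 + Real.sqrt k' * (M + (1 + Real.sqrt k * M)) =
      (1 + Real.sqrt k') + (Real.sqrt k' * (1 + Real.sqrt k)) * M := by ring
  have b0 : 0 ≤ (1 + Real.sqrt k') + (Real.sqrt k' * (1 + Real.sqrt k)) * M := by positivity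
  rw [e, hth] at h
  have c1 : (m' + s) * ((1 + Real.sqrt k') + (Real.sqrt k' * (1 + Real.sqrt k)) * M) ≤
      (2 * m') * ((1 + Real.sqrt k') + (Real.sqrt k' * (1 + Real.sqrt k)) * M) :=
    mul_le_mul_of_nonneg_right (by linarith) b0
  have c2 : (2 * m') * ((1 + Real.sqrt k') + (Real.sqrt k' * (1 + Real.sqrt k)) * M) =
      2 * m' * (1 + Real.sqrt k') + (2 * m' * (Real.sqrt k' * (1 + Real.sqrt k))) * M := by ring
  have c3 : (2 * m' * (Real.sqrt k' * (1 + Real.sqrt k))) * M ≤ lam / 4 * M :=
    mul_le_mul_of_nonneg_right h2 hM.le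
  have c4 : lam * m ≤ lam * M := mul_le_mul_of_nonneg_left hmM hlam.le
  have c5 : 0 < lam * M := mul_pos hlam hM
  linarith

/-- The recursive claim. -/
theorem claim {lam eps : ℝ} (hlam : 0 < lam) (hlam1 : lam ≤ 1) (heps : 0 < eps) (J : ℕ) :
    ∀ j ≤ J, ∀ k : ℝ, 1 ≤ k → (J : ℝ) * (9 * lam + 4 / (eps * k)) < 1 → ∀ m : ℝ, 0 < m →
    ∃ D : ℕ, ∀ (V : Type) [Fintype V] [DecidableEq V] (adj : V → V → Prop) (P : V → ℕ → Prop)
      (X : Finset V) (T : ℕ), (∀ v, ∃ A : Finset V, D ≤ A.card ∧ ∀ w ∈ A, adj v w ∧ w ∉ X) →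
      (∃ v t, t ≤ T ∧ P v t ∧ ∀ h ∈ Hs adj P X t v, m ^ 2 ≤ ip (T + 1) k h h) →
      ∃ (y : Fin j → V) (τ : Fin j → ℕ), (∀ i, P (y i) (τ i) ∧ τ i ≤ T) ∧
        Function.Injective y ∧ ∀ i i', i < i' → RP adj T eps (y i) (y i') := by
  classical
  intro j
  induction j with
  | zero =>
    intro _ k _ _ m _
    exact ⟨0, fun V _ _ adj P X T _ _ => ⟨Fin.elim0, Fin.elim0, fun i => i.elim0,
      fun i => i.elim0, fun i => i.elim0⟩⟩
  | succ j ih =>
    intro hjJ k hk1 hsm m hm
    have hk : 0 < k := by linarith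
    set k' : ℝ := 2 * k with hk'
    have hk'0 : 0 < k' := by positivity
    have a0 := Real.sqrt_nonneg k
    have a1 := Real.sqrt_nonneg k'
    have a1' : 0 < Real.sqrt k' := Real.sqrt_pos.2 hk'0
    set m' : ℝ := min (lam * m / (8 * (1 + Real.sqrt k')))
      (lam / (8 * (Real.sqrt k' * (1 + Real.sqrt k)))) with hm'
    have hm'0 : 0 < m' := lt_min (by positivity) (by positivity)
    have hb1 : 2 * m' * (1 + Real.sqrt k') ≤ lam * m / 4 := by
      have := min_le_left (lam * m / (8 * (1 + Real.sqrt k')))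
        (lam / (8 * (Real.sqrt k' * (1 + Real.sqrt k))))
      rw [← hm', le_div_iff₀ (by positivity)] at this
      linarith
    have hb2 : 2 * m' * (Real.sqrt k' * (1 + Real.sqrt k)) ≤ lam / 4 := by
      have := min_le_right (lam * m / (8 * (1 + Real.sqrt k')))
        (lam / (8 * (Real.sqrt k' * (1 + Real.sqrt k))))
      rw [← hm', le_div_iff₀ (by positivity)] at this
      linarith
    have hsm' : (J : ℝ) * (9 * lam + 4 / (eps * k')) < 1 := by
      refine lt_of_le_of_lt (mul_le_mul_of_nonneg_left (add_le_add le_rfl ?_)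
        (Nat.cast_nonneg J)) hsm
      refine div_le_div_of_nonneg_left (by norm_num) (by positivity) ?_
      exact mul_le_mul_of_nonneg_left (by linarith) heps.le
    obtain ⟨D', hD'⟩ := ih (by omega) k' (by linarith) hsm' m' hm'0
    set θ0 : ℝ := lam * m / (4 * (1 + Real.sqrt k * m)) with hθ0
    have hθ0pos : 0 < θ0 := by positivity
    obtain ⟨n0, hn0⟩ := exists_nat_ge (((1 + Real.sqrt k' * m') / m') ^ 2)
    obtain ⟨n1, hn1⟩ := exists_nat_ge (1 / θ0 ^ 2)
    refine ⟨D' + n0 + n1 + 1, fun V _ _ adj P X T hdeg hbig => ?_⟩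
    obtain ⟨v0, t0, ht0, hP0, hbig0⟩ := hbig
    have hne : ∀ v, ∃ w, adj v w ∧ w ∉ X := by
      intro v
      obtain ⟨A, hA, hA2⟩ := hdeg v
      have : 0 < A.card := by omega
      obtain ⟨w, hw⟩ := card_pos.1 this
      exact ⟨w, hA2 w hw⟩
    choose K hKm hKmin using fun t v => exists_min (adj := adj) (P := P) (X := X) hne (T + 1)
      hk.le t v
    set E : ℕ × V → ℝ := fun p => ip (T + 1) k (K p.1 p.2) (K p.1 p.2) with hE
    set S : Finset (ℕ × V) := (range (T + 1) ×ˢ univ).filter (fun p => P p.2 p.1) with hS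
    have hmemS : ∀ p : ℕ × V, p ∈ S ↔ p.1 ≤ T ∧ P p.2 p.1 := by
      intro p
      simp only [hS, mem_filter, mem_product, mem_range, mem_univ, and_true]
      constructor
      · rintro ⟨h1, h2⟩
        exact ⟨by omega, h2⟩
      · rintro ⟨h1, h2⟩
        exact ⟨by omega, h2⟩
    obtain ⟨⟨tx, vx⟩, hxS, hxmax⟩ := S.exists_max_image E ⟨(t0, v0), (hmemS _).2 ⟨ht0, hP0⟩⟩
    have hEx : m ^ 2 ≤ E (tx, vx) :=
      (hbig0 _ (hKm t0 v0)).trans (hxmax (t0, v0) ((hmemS _).2 ⟨ht0, hP0⟩))
    obtain ⟨htxT, hPx⟩ := (hmemS _).1 hxS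
    simp only at htxT hPx
    cases tx with
    | zero =>
      exfalso
      have h1 : K 0 vx = one := by
        have := hKm 0 vx
        rwa [hs_zero, Set.mem_singleton_iff] at this
      have h2 : E (0, vx) = 0 := by
        simp only [hE, h1]
        refine sum_eq_zero fun Z _ => ?_
        by_cases hZ : Z = []
        · simp [wt, hZ]
        · rw [one_ne hZ]
          simp
      rw [h2] at hEx
      have : 0 < m ^ 2 := by positivity
      linarith
    | succ t =>
      set hx : List V → ℝ := K (t + 1) vx with hhx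
      have hE0 : 0 ≤ E (t + 1, vx) := ip_self_nonneg hk.le _
      set M : ℝ := Real.sqrt (E (t + 1, vx)) with hM
      have hM2 : M ^ 2 = E (t + 1, vx) := Real.sq_sqrt hE0
      have hmM : m ≤ M := by
        rw [hM]
        exact Real.le_sqrt_of_sq_le hEx
      have hMpos : 0 < M := by linarith
      have hxM : ip (T + 1) k hx hx = M ^ 2 := hM2.symm
      set θ : ℝ := lam * M / (4 * (1 + Real.sqrt k * M)) with hθ
      have hθpos : 0 < θ := by positivity
      have hθ0θ : θ0 ≤ θ := by
        rw [hθ0, hθ, div_le_div_iff₀ (by positivity) (by positivity)]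
        have h1 := mul_le_mul_of_nonneg_left hmM hlam.le
        nlinarith
      have hθ1 : (1 + Real.sqrt k * M) * θ = lam * M / 4 := by
        rw [hθ]
        field_simp
      have hθsq : θ ^ 2 ≤ lam := by
        have h1 : θ ≤ lam / 4 := by
          rw [hθ, div_le_div_iff₀ (by positivity) (by norm_num)]
          have h2 : 1 ≤ Real.sqrt k := Real.one_le_sqrt.2 hk1
          have h3 : M ≤ 1 + Real.sqrt k * M := by nlinarith
          nlinarith
        nlinarith
      set HV : Finset V := univ.filter (fun w => (θ * M) ^ 2 <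
        ip0 T k (fun Z => hx (w :: Z)) (fun Z => hx (w :: Z))) with hHV
      set X' : Finset V := X ∪ HV with hX'
      set P' : V → ℕ → Prop := fun w t => P w t ∧
        (1 - lam) * M ^ 2 ≤ ip (T + 1) k (K t w) hx ∧ w ∉ X' with hP'
      have hHVc : HV.card ≤ n1 := by
        have h1 : (HV.card : ℝ) * (θ * M) ^ 2 ≤ M ^ 2 := by
          rw [← hxM, ip_succ]
          calc (HV.card : ℝ) * (θ * M) ^ 2 = ∑ _w ∈ HV, (θ * M) ^ 2 := by
                rw [sum_const, nsmul_eq_mul]
            _ ≤ ∑ w ∈ HV, ip0 T k (fun Z => hx (w :: Z)) (fun Z => hx (w :: Z)) :=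
                sum_le_sum fun w hw => (mem_filter.1 hw).2.le
            _ ≤ _ := sum_le_sum_of_subset_of_nonneg (subset_univ _)
                fun w _ _ => ip0_self_nonneg hk.le _
        have h2 : (HV.card : ℝ) * θ0 ^ 2 ≤ 1 := by
          have h3 : θ0 ^ 2 ≤ θ ^ 2 := pow_le_pow_left₀ hθ0pos.le hθ0θ 2
          have h4 : (HV.card : ℝ) * θ ^ 2 ≤ 1 := by
            have h5 : ((HV.card : ℝ) * θ ^ 2) * M ^ 2 ≤ 1 * M ^ 2 := by
              rw [one_mul]
              linarith [h1, show (HV.card : ℝ) * (θ * M) ^ 2 = ((HV.card : ℝ) * θ ^ 2) * M ^ 2 by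
                ring]
            exact le_of_mul_le_mul_right h5 (by positivity)
          exact (mul_le_mul_of_nonneg_left h3 (Nat.cast_nonneg _)).trans h4
        have h3 : (HV.card : ℝ) ≤ n1 := by
          refine le_trans ?_ hn1
          rw [le_div_iff₀ (by positivity)]
          exact h2
        exact_mod_cast h3
      have hdeg' : ∀ v, ∃ A : Finset V, D' + n0 + 1 ≤ A.card ∧ ∀ w ∈ A, adj v w ∧ w ∉ X' := by
        intro v
        obtain ⟨A, hA, hA2⟩ := hdeg v
        refine ⟨A \ HV, ?_, fun w hw => ?_⟩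
        · have := le_card_sdiff HV A
          omega
        · obtain ⟨h1, h2⟩ := mem_sdiff.1 hw
          refine ⟨(hA2 w h1).1, fun hc => ?_⟩
          rcases mem_union.1 hc with hc | hc
          · exact (hA2 w h1).2 hc
          · exact h2 hc
      have hheavy : ∀ w, w ∉ X' →
          ip0 T k (fun Z => hx (w :: Z)) (fun Z => hx (w :: Z)) ≤ (θ * M) ^ 2 := by
        intro w hw
        by_contra hcon
        push_neg at hcon
        exact hw (mem_union_right _ (mem_filter.2 ⟨mem_univ _, hcon⟩))
      -- the inner system has large energy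
      have hinner : ∃ v t, t ≤ T ∧ P' v t ∧ ∀ h ∈ Hs adj P' X' t v,
          m' ^ 2 ≤ ip (T + 1) k' h h := by
        by_contra hcon
        push_neg at hcon
        obtain ⟨A, hA, hA2⟩ := hdeg' vx
        have hAc : 0 < A.card := by omega
        have hlem := lemA (adj := adj) (P := P) (P' := P') (X := X) (X' := X') (N := T) (t := t)
          (k := k) (k' := k') (M := M) (f := m') (lam := lam) (th := θ) hk (le_of_eq hk'.symm)
          hMpos hm'0.le hlam1 hθpos.le (fun w t h => h.1) subset_union_left (by omega)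
          (v := vx) (hx := hx) (hKm _ _) hxM.le
          (fun h hh => by
            rw [← hxM]
            exact hKmin _ _ h hh) K (fun t' w _ => hKm t' w)
          (fun t' w ht' hPw => by
            rw [hM2]
            exact hxmax (t', w) ((hmemS _).2 ⟨by simp only; omega, hPw⟩))
          (fun t' w ht' hPw hnP hwX => by
            by_contra hc
            push_neg at hc
            exact hnP ⟨hPw, hc.le, hwX⟩)
          hheavy
          (fun w hw => by
            obtain ⟨g, hg, hg2⟩ := hcon w t (by omega) hw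
            exact ⟨g, hg, hg2.le⟩) A hA2 hAc
        refine num_contra hlam hm hmM hk.le hm'0.le ?_ hθ1 hb1 hb2 hlem
        have hAn : ((1 + Real.sqrt k' * m') / m') ^ 2 ≤ A.card := by
          refine hn0.trans ?_
          exact_mod_cast (by omega : n0 ≤ A.card)
        have hA' : (0 : ℝ) < A.card := by exact_mod_cast hAc
        have h1 : (1 + Real.sqrt k' * m') / m' ≤ Real.sqrt A.card := Real.le_sqrt_of_sq_le hAn
        rw [Real.sqrt_inv]
        rw [div_le_iff₀ hm'0] at h1
        rw [inv_mul_le_iff₀ (Real.sqrt_pos.2 hA')]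
        linarith
      obtain ⟨y, τ, hyτ, hyinj, hyRP⟩ := hD' V adj P' X' T
        (fun v => by
          obtain ⟨A, hA, hA2⟩ := hdeg' v
          exact ⟨A, by omega, hA2⟩) hinner
      -- the target
      obtain ⟨z, Z, hz1, _, hz2, hz3⟩ := lemB (N := T) (k := k) (M := M) (lam := lam) (th := θ)
        (eps := eps) hk hMpos heps (hs_nonneg (hKm (t + 1) vx)) hxM y (fun i => K (τ i) (y i))
        (fun i Z hZ => hs_long (hKm _ _) (lt_of_le_of_lt (hyτ i).2 hZ))
        (fun i Z => hs_nonneg (hKm _ _) Z)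
        (fun i => by
          rw [hM2]
          exact hxmax (τ i, y i) ((hmemS _).2 ⟨(hyτ i).2, (hyτ i).1.1⟩))
        (fun i => (hyτ i).1.2.1)
        (fun i => hheavy _ (hyτ i).1.2.2)
        (by
          rw [Fintype.card_fin]
          have hj : (j : ℝ) ≤ J := by exact_mod_cast (by omega : j ≤ J)
          have h1 : 8 * lam + 4 / (eps * k) + θ ^ 2 ≤ 9 * lam + 4 / (eps * k) := by linarith
          have h2 : 0 ≤ 8 * lam + 4 / (eps * k) + θ ^ 2 := by positivity
          calc (j : ℝ) * (8 * lam + 4 / (eps * k) + θ ^ 2)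
              ≤ J * (8 * lam + 4 / (eps * k) + θ ^ 2) := mul_le_mul_of_nonneg_right hj h2
            _ ≤ J * (9 * lam + 4 / (eps * k)) :=
                mul_le_mul_of_nonneg_left h1 (Nat.cast_nonneg _)
            _ < 1 := hsm)
      obtain ⟨t'', ht'', hPz⟩ := pos_state (hKm (t + 1) vx) hz1.ne'
      refine ⟨Fin.snoc (α := fun _ => V) y z, Fin.snoc (α := fun _ => ℕ) τ t'', ?_, ?_, ?_⟩
      · intro i
        induction i using Fin.lastCases with
        | last =>
          simp only [Fin.snoc_last]
          exact ⟨hPz, by omega⟩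
        | cast i =>
          simp only [Fin.snoc_castSucc]
          exact ⟨(hyτ i).1.1, (hyτ i).2⟩
      · intro i i' hii
        induction i using Fin.lastCases with
        | last =>
          induction i' using Fin.lastCases with
          | last => rfl
          | cast i' =>
            simp only [Fin.snoc_last, Fin.snoc_castSucc] at hii
            exact absurd hii (hz2 i')
        | cast i =>
          induction i' using Fin.lastCases with
          | last =>
            simp only [Fin.snoc_last, Fin.snoc_castSucc] at hii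
            exact absurd hii.symm (hz2 i)
          | cast i' =>
            simp only [Fin.snoc_castSucc] at hii
            rw [hyinj hii]
      · intro i i' hii
        induction i' using Fin.lastCases with
        | last =>
          induction i using Fin.lastCases with
          | last => exact absurd hii (lt_irrefl _)
          | cast i =>
            simp only [Fin.snoc_last, Fin.snoc_castSucc]
            exact rp_of_word (hyτ i).2 (hKm _ _) (hz3 i).1 (hz3 i).2
        | cast i' =>
          induction i using Fin.lastCases with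
          | last => exact absurd hii (not_lt.2 (Fin.le_last _))
          | cast i =>
            simp only [Fin.snoc_castSucc]
            exact hyRP i i' (by simpa using hii)

end Pool.Agent.H81.TTK
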