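import Pool.Agent.H81.TTK.Words

/-!
# Estimates for products of word functions
-/

set_option autoImplicit false

namespace Pool.Agent.H81.TTK

open Finset

variable {V : Type*} [Fintype V] [DecidableEq V]

/-- Sums over words and their splittings with nonempty second part. -/
theorem sum_split (N : ℕ) (F : List V → List V → ℝ) :
    ∑ Z ∈ W V N, ∑ i ∈ range Z.length, F (Z.take i) (Z.drop i) =
      ∑ p ∈ (W V N ×ˢ W V N).filter (fun p => p.2 ≠ [] ∧ p.1.length + p.2.length ≤ N),
        F p.1 p.2 := by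
  rw [sum_sigma']
  refine sum_nbij' (fun q => (q.1.take q.2, q.1.drop q.2)) (fun p => ⟨p.1 ++ p.2, p.1.length⟩)
    ?_ ?_ ?_ ?_ ?_
  · rintro ⟨Z, i⟩ h
    simp only [mem_sigma, mem_range, mem_W] at h
    simp only [mem_filter, mem_product, mem_W, List.length_take, List.length_drop, ne_eq,
      List.drop_eq_nil_iff]
    omega
  · rintro ⟨a, b⟩ h
    simp only [mem_filter, mem_product, mem_W] at h
    have hb : 0 < b.length := List.length_pos_iff.2 h.2.1
    simp only [mem_sigma, mem_W, List.length_append, mem_range]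
    omega
  · rintro ⟨Z, i⟩ h
    simp only [mem_sigma, mem_range, mem_W] at h
    have : (Z.take i).length = i := by
      rw [List.length_take]
      omega
    simp [this]
  · rintro ⟨a, b⟩ _
    simp
  · rintro ⟨Z, i⟩ _
    rfl

/-- For a fixed length of the first part the splittings are words. -/
theorem sum_append_le (N i : ℕ) (F : List V → ℝ) (hF : ∀ Z, 0 ≤ F Z)
    (h0 : ∀ Z, N < Z.length → F Z = 0) :
    ∑ Z1 ∈ (W V N).filter (fun Z => Z.length = i), ∑ Z2 ∈ W V N, F (Z1 ++ Z2) ≤
      ∑ Z ∈ W V N, F Z := by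
  rw [← sum_product' (f := fun a b => F (a ++ b))]
  have hinj : Set.InjOn (fun p : List V × List V => p.1 ++ p.2)
      ((((W V N).filter (fun Z => Z.length = i)) ×ˢ W V N : Finset (List V × List V)) :
        Set (List V × List V)) := by
    rintro ⟨a, b⟩ h ⟨a', b'⟩ h' e
    simp only [coe_product, Set.mem_prod, mem_coe, mem_filter] at h h'
    obtain ⟨e1, e2⟩ := List.append_inj e (h.1.2.trans h'.1.2.symm)
    exact Prod.ext e1 e2
  rw [← sum_image (f := F) hinj]
  rw [← sum_filter_add_sum_filter_not (image _ _) (fun Z => Z.length ≤ N)]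
  have h1 : ∑ Z ∈ (image (fun p : List V × List V => p.1 ++ p.2)
      (((W V N).filter (fun Z => Z.length = i)) ×ˢ W V N)).filter (fun Z => ¬ Z.length ≤ N),
      F Z = 0 := by
    refine sum_eq_zero fun Z hZ => ?_
    exact h0 Z (not_le.1 (mem_filter.1 hZ).2)
  rw [h1, add_zero]
  refine sum_le_sum_of_subset_of_nonneg (fun Z hZ => mem_W.2 (mem_filter.1 hZ).2)
    fun Z _ _ => hF Z

/-- The contribution of the products with nonempty first factor. -/
theorem conv_est {U : Type*} (s : Finset U) {N : ℕ} {k k' : ℝ} (hk : 0 < k) (hkk : 2 * k ≤ k')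
    {B K : U → List V → ℝ} {g hx : List V → ℝ} {f C M : ℝ}
    (hB : ∀ u Z, 0 ≤ B u Z) (hC : 0 ≤ C) (hM : 0 ≤ M) (hf : 0 ≤ f)
    (hKC : ∀ u ∈ s, ip N k (K u) (K u) ≤ C ^ 2)
    (h0 : ∀ Z : List V, N < Z.length → hx Z = 0) (hxM : ip N k hx hx ≤ M ^ 2)
    (hg : ip N k' g g ≤ f ^ 2) (hBg : ∀ Z, Z ≠ [] → ∑ u ∈ s, B u Z ≤ g Z) :
    ∑ Z ∈ W V N, ∑ i ∈ range Z.length, (if i = 0 then 0 else
      wt k Z * (∑ u ∈ s, B u (Z.take i) * K u (Z.drop i)) * hx Z) ≤
      Real.sqrt k' * f * C * M := by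
  have hk' : 0 < k' := by linarith
  -- rewrite as a sum over pairs
  have e1 : ∑ Z ∈ W V N, ∑ i ∈ range Z.length, (if i = 0 then 0 else
      wt k Z * (∑ u ∈ s, B u (Z.take i) * K u (Z.drop i)) * hx Z) =
      ∑ Z ∈ W V N, ∑ i ∈ range Z.length, (if Z.take i = [] then 0 else
        k ^ (Z.take i).length * (wt k (Z.drop i) *
          ((∑ u ∈ s, B u (Z.take i) * K u (Z.drop i)) * hx (Z.take i ++ Z.drop i)))) := by
    refine sum_congr rfl fun Z _ => sum_congr rfl fun i hi => ?_
    have hi' := mem_range.1 hi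
    by_cases h : i = 0
    · simp [h]
    · have hZ : Z ≠ [] := by
        rintro rfl
        simp at hi'
      have h1 : Z.take i ≠ [] := by
        rw [ne_eq, List.take_eq_nil_iff]
        tauto
      have h2 : Z.drop i ≠ [] := by
        rw [ne_eq, List.drop_eq_nil_iff]
        omega
      have h3 : wt k Z = k ^ (Z.take i).length * wt k (Z.drop i) := by
        unfold wt
        rw [if_neg hZ, if_neg h2, ← pow_add, List.length_take, List.length_drop]
        congr 1
        omega
      rw [if_neg h, if_neg h1, List.take_append_drop, h3]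
      ring
  rw [e1, sum_split N (fun Z1 Z2 => if Z1 = [] then 0 else
        k ^ Z1.length * (wt k Z2 * ((∑ u ∈ s, B u Z1 * K u Z2) * hx (Z1 ++ Z2))))]
  -- drop the length condition
  have e2 : ∑ p ∈ (W V N ×ˢ W V N).filter (fun p => p.2 ≠ [] ∧ p.1.length + p.2.length ≤ N),
      (if p.1 = [] then 0 else
        k ^ p.1.length * (wt k p.2 * ((∑ u ∈ s, B u p.1 * K u p.2) * hx (p.1 ++ p.2)))) =
      ∑ Z1 ∈ W V N, if Z1 = [] then 0 else
        k ^ Z1.length * ip N k (fun Z2 => ∑ u ∈ s, B u Z1 * K u Z2) (fun Z2 => hx (Z1 ++ Z2)) := by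
    rw [sum_filter_of_ne, sum_product]
    · refine sum_congr rfl fun Z1 _ => ?_
      split_ifs
      · simp
      · rw [ip, mul_sum]
    · rintro ⟨a, b⟩ _ hne
      by_contra hcon
      apply hne
      have : b = [] ∨ N < a.length + b.length := by
        by_contra h
        push_neg at h
        exact hcon h
      rcases this with rfl | h
      · simp [wt]
      · simp only
        rw [h0 (a ++ b) (by rw [List.length_append]; exact h)]
        simp
  rw [e2]
  set τ : List V → ℝ := fun Z1 => Real.sqrt (ip N k (fun Z2 => hx (Z1 ++ Z2))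
    (fun Z2 => hx (Z1 ++ Z2))) with hτ
  have hτ0 : ∀ Z, 0 ≤ τ Z := fun Z => Real.sqrt_nonneg _
  have hτ2 : ∀ Z, τ Z ^ 2 = ip N k (fun Z2 => hx (Z ++ Z2)) (fun Z2 => hx (Z ++ Z2)) := fun Z =>
    Real.sq_sqrt (ip_self_nonneg hk.le _)
  have h3 : ∀ Z1 ∈ W V N, (if Z1 = [] then 0 else
        k ^ Z1.length * ip N k (fun Z2 => ∑ u ∈ s, B u Z1 * K u Z2) (fun Z2 => hx (Z1 ++ Z2))) ≤
      C * ((if Z1 = [] then 0 else Real.sqrt k' ^ Z1.length * g Z1) *
        (if Z1 = [] then 0 else (k / Real.sqrt k') ^ Z1.length * τ Z1)) := by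
    intro Z1 _
    by_cases h : Z1 = []
    · simp [h]
    · rw [if_neg h, if_neg h, if_neg h]
      have hb : 0 ≤ ∑ u ∈ s, B u Z1 := sum_nonneg fun u _ => hB u Z1
      have h4 := ip_le (N := N) hk.le (mul_nonneg hb hC) (hτ0 Z1)
        (ip_sum_self_le s hk.le (fun u => B u Z1) (fun u _ => hB u Z1) K hC hKC) (hτ2 Z1).ge
      have h5 : Real.sqrt k' ^ Z1.length * (k / Real.sqrt k') ^ Z1.length = k ^ Z1.length := by
        rw [← mul_pow, mul_div_cancel₀ _ (Real.sqrt_pos.2 hk').ne']
      calc k ^ Z1.length * ip N k (fun Z2 => ∑ u ∈ s, B u Z1 * K u Z2)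
            (fun Z2 => hx (Z1 ++ Z2))
          ≤ k ^ Z1.length * ((g Z1 * C) * τ Z1) := by
            refine mul_le_mul_of_nonneg_left (h4.trans ?_) (pow_nonneg hk.le _)
            exact mul_le_mul_of_nonneg_right (mul_le_mul_of_nonneg_right (hBg Z1 h) hC) (hτ0 Z1)
        _ = _ := by
            rw [← h5]
            ring
  refine (sum_le_sum h3).trans ?_
  rw [← mul_sum]
  have h6 := sum_mul_sq_le_sq_mul_sq (W V N)
    (fun Z1 => if Z1 = [] then 0 else Real.sqrt k' ^ Z1.length * g Z1)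
    (fun Z1 => if Z1 = [] then 0 else (k / Real.sqrt k') ^ Z1.length * τ Z1)
  -- first factor
  have h7 : ∑ Z1 ∈ W V N, (if Z1 = [] then 0 else Real.sqrt k' ^ Z1.length * g Z1) ^ 2 ≤
      (Real.sqrt k' * f) ^ 2 := by
    rw [mul_pow, Real.sq_sqrt hk'.le]
    refine le_trans (le_of_eq ?_) (mul_le_mul_of_nonneg_left hg hk'.le)
    rw [ip, mul_sum]
    refine sum_congr rfl fun Z _ => ?_
    by_cases h : Z = []
    · simp [h, wt]
    · rw [if_neg h, wt, if_neg h, mul_pow, ← pow_mul, mul_comm Z.length 2, pow_mul,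
        Real.sq_sqrt hk'.le]
      have : 0 < Z.length := List.length_pos_iff.2 h
      obtain ⟨m, hm⟩ : ∃ m, Z.length = m + 1 := ⟨Z.length - 1, by omega⟩
      rw [hm, Nat.add_sub_cancel, pow_succ]
      ring
  -- second factor
  have h8 : ∑ Z1 ∈ W V N, (if Z1 = [] then 0 else (k / Real.sqrt k') ^ Z1.length * τ Z1) ^ 2 ≤
      M ^ 2 := by
    have h9 : ∀ Z1 ∈ W V N, (if Z1 = [] then 0 else (k / Real.sqrt k') ^ Z1.length * τ Z1) ^ 2 ≤
        (if Z1.length = 0 then 0 else (1 / 2 : ℝ) ^ Z1.length) *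
          ∑ Z2 ∈ W V N, wt k (Z1 ++ Z2) * (hx (Z1 ++ Z2) * hx (Z1 ++ Z2)) := by
      intro Z1 _
      by_cases h : Z1 = []
      · simp [h]
      · have hl : Z1.length ≠ 0 := by
          rw [ne_eq, List.length_eq_zero_iff]
          exact h
        rw [if_neg h, if_neg hl, mul_pow, hτ2, ← pow_mul, mul_comm Z1.length 2, pow_mul, div_pow,
          Real.sq_sqrt hk'.le, ip, mul_sum, mul_sum]
        refine sum_le_sum fun Z2 _ => ?_
        by_cases h2 : Z2 = []
        · subst h2
          rw [show wt k ([] : List V) = 0 from if_pos rfl, zero_mul, mul_zero]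
          exact mul_nonneg (by positivity) (mul_nonneg (wt_nonneg hk.le _) (mul_self_nonneg _))
        · have e3 : wt k (Z1 ++ Z2) = k ^ Z1.length * wt k Z2 := by
            unfold wt
            rw [if_neg h2, if_neg (by simp [h]), ← pow_add, List.length_append]
            have : 0 < Z2.length := List.length_pos_iff.2 h2
            congr 1
            omega
          have e4 : (k ^ 2 / k') ^ Z1.length ≤ (1 / 2 : ℝ) ^ Z1.length * k ^ Z1.length := by
            rw [← mul_pow]
            refine pow_le_pow_left₀ (by positivity) ?_ _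
            rw [div_le_iff₀ hk']
            nlinarith
          rw [e3]
          calc _ ≤ ((1 / 2 : ℝ) ^ Z1.length * k ^ Z1.length) *
                (wt k Z2 * (hx (Z1 ++ Z2) * hx (Z1 ++ Z2))) :=
                mul_le_mul_of_nonneg_right e4
                  (mul_nonneg (wt_nonneg hk.le _) (mul_self_nonneg _))
            _ = _ := by ring
    refine (sum_le_sum h9).trans ?_
    rw [← sum_fiberwise_of_maps_to (s := W V N) (t := range (N + 1)) (g := List.length)
      (fun Z hZ => mem_range.2 (by have := mem_W.1 hZ; omega))]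
    have h10 : ∀ i ∈ range (N + 1), ∑ Z1 ∈ (W V N).filter (fun Z => Z.length = i),
        (if Z1.length = 0 then 0 else (1 / 2 : ℝ) ^ Z1.length) *
          ∑ Z2 ∈ W V N, wt k (Z1 ++ Z2) * (hx (Z1 ++ Z2) * hx (Z1 ++ Z2)) ≤
        (if i = 0 then 0 else (1 / 2 : ℝ) ^ i) * M ^ 2 := by
      intro i _
      have h11 := (sum_append_le N i (fun Z => wt k Z * (hx Z * hx Z))
        (fun Z => mul_nonneg (wt_nonneg hk.le Z) (mul_self_nonneg _))
        (fun Z hZ => by rw [h0 Z hZ]; simp)).trans hxM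
      refine le_trans (le_of_eq ?_) (mul_le_mul_of_nonneg_left h11 ?_)
      · rw [mul_sum]
        refine sum_congr rfl fun Z hZ => ?_
        rw [(mem_filter.1 hZ).2]
      · split_ifs
        · exact le_rfl
        · positivity
    refine (sum_le_sum h10).trans ?_
    rw [← sum_mul]
    have h12 : ∑ i ∈ range (N + 1), (if i = 0 then 0 else (1 / 2 : ℝ) ^ i) ≤ 1 := by
      rw [sum_range_succ']
      simp only [Nat.add_eq_zero_iff, one_ne_zero, and_false, if_false, if_true, add_zero]
      have h13 := sum_geometric_two_le N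
      have h14 : ∑ i ∈ range N, (1 / 2 : ℝ) ^ (i + 1) = (1 / 2) * ∑ i ∈ range N, (1 / 2 : ℝ) ^ i := by
        rw [mul_sum]
        exact sum_congr rfl fun i _ => by rw [pow_succ]; ring
      rw [h14]
      linarith
    nlinarith [sq_nonneg M]
  have h15 : (∑ Z1 ∈ W V N, (if Z1 = [] then 0 else Real.sqrt k' ^ Z1.length * g Z1) *
      (if Z1 = [] then 0 else (k / Real.sqrt k') ^ Z1.length * τ Z1)) ^ 2 ≤
      (Real.sqrt k' * f * M) ^ 2 := by
    refine h6.trans ?_
    rw [mul_pow _ M]
    exact mul_le_mul h7 h8 (sum_nonneg fun Z _ => sq_nonneg _) (sq_nonneg _)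
  have h16 := abs_le_of_sq_le_sq' h15 (by positivity) |>.2
  calc _ ≤ C * (Real.sqrt k' * f * M) := mul_le_mul_of_nonneg_left h16 hC
    _ = _ := by ring

end Pool.Agent.H81.TTK
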