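import Pool.Agent.H81.TTK.Core

/-!
# Walks with exits and their word vectors

`Hs adj P X t v` is the set of the word vectors of the strategies for walks which start at `v` and
have `t` steps left; each step goes to an out-neighbour outside `X`; the walk stops when it gets to
a state `(w, t')` which does not satisfy `P` (that vertex is not counted) or when no steps are left.
The value of the vector at a word is the expected number of its occurrences as a subsequence.
-/

set_option autoImplicit false

namespace Pool.Agent.H81.TTK

open Finset

variable {V : Type*} [Fintype V] [DecidableEq V]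

/-- The vector of the empty walk. -/
def one : List V → ℝ := fun Z => if Z = [] then 1 else 0

/-- Multiplication by the letter `w` on the left. -/
def sh (w : V) (h : List V → ℝ) : List V → ℝ
  | [] => 0
  | a :: Z => if a = w then h Z else 0

/-- Adding a first vertex `w` to the walk. -/
def pre (w : V) (h : List V → ℝ) : List V → ℝ := fun Z => h Z + sh w h Z

/-- The vectors of the strategies. -/
def Hs (adj : V → V → Prop) (P : V → ℕ → Prop) (X : Finset V) : ℕ → V → Set (List V → ℝ)
  | 0, _ => {one}
  | t + 1, v => {h | ∃ (α : V → ℝ) (k : V → List V → ℝ), (∀ w, 0 ≤ α w) ∧ ∑ w, α w = 1 ∧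
      (∀ w, α w ≠ 0 → adj v w ∧ w ∉ X) ∧ (∀ w, P w t → k w ∈ Hs adj P X t w) ∧
      (∀ w, ¬ P w t → k w = one) ∧
      ∀ Z, h Z = ∑ w, α w * (open Classical in if P w t then pre w (k w) Z else one Z)}

end Pool.Agent.H81.TTK
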