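import Pool.Agent.H81.TTK.Choice

/-!
# The end of the proof: disjoint paths
-/

set_option autoImplicit false

namespace Pool.Agent.H81.TTK

open Finset

/-- A walk gives a path as a function. -/
theorem path_of_chain {V : Type*} {adj : V → V → Prop} (a b : V) (F : List V)
    (hc : List.IsChain adj (a :: (F ++ [b]))) : ∃ (L : ℕ) (p : ℕ → V), p 0 = a ∧ p L = b ∧
      (∀ t, t < L → adj (p t) (p (t + 1))) ∧ (∀ s t, s ≤ L → t ≤ L → p s = p t → s = t) ∧
      ∀ t, 0 < t → t < L → p t ∈ F := by
  classical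
  obtain ⟨c, h1, h2, h3, h4, h5⟩ := shorten _ (List.cons_ne_nil a (F ++ [b])) hc
  have hcn : c ≠ [] := by
    rintro rfl
    simp at h3
  have hlen : 0 < c.length := List.length_pos_iff.2 hcn
  have hg : ∀ t (ht : t < c.length), c.getD t a = c.get ⟨t, ht⟩ := fun t ht => by
    simp [List.getD_eq_getElem?_getD, List.getElem?_eq_getElem ht]
  have e0 : c.getD 0 a = a := by
    obtain ⟨x, c2, rfl⟩ := List.exists_cons_of_ne_nil hcn
    simpa using h3
  have eL : c.getD (c.length - 1) a = b := by
    rw [List.getLast?_eq_some_getLast hcn] at h4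
    have h6 : (a :: (F ++ [b])).getLast? = some b := by
      rw [show a :: (F ++ [b]) = (a :: F) ++ [b] by simp, List.getLast?_append]
      simp
    rw [h6, List.getLast_eq_getElem] at h4
    rw [hg _ (by omega)]
    exact Option.some.inj h4
  have inj : ∀ s t, s ≤ c.length - 1 → t ≤ c.length - 1 → c.getD s a = c.getD t a → s = t := by
    intro s t hs ht he
    rw [hg s (by omega), hg t (by omega)] at he
    exact (h1.getElem_inj_iff).1 he
  refine ⟨c.length - 1, fun t => c.getD t a, e0, eL, fun t ht => ?_, inj, fun t ht0 ht => ?_⟩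
  · show adj (c.getD t a) (c.getD (t + 1) a)
    rw [hg t (by omega), hg (t + 1) (by omega)]
    exact (List.isChain_iff_getElem.1 h5) t (by omega)
  · show c.getD t a ∈ F
    have hm : c.getD t a ∈ c := by
      rw [hg t (by omega)]
      exact List.getElem_mem _
    have hm2 := h2 _ hm
    rcases List.mem_cons.1 hm2 with h | h
    · have := inj t 0 (by omega) (by omega) (h.trans e0.symm)
      omega
    · rcases List.mem_append.1 h with h | h
      · exact h
      · have h' : c.getD t a = b := by simpa using h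
        have := inj t (c.length - 1) (by omega) le_rfl (h'.trans eL.symm)
        omega

/-- Subdivisions of transitive tournaments in digraphs of large minimum out-degree. -/
theorem mader (k : ℕ) : ∃ h : ℕ, ∀ (V : Type) [Fintype V] [Nonempty V] (G : Digraph V),
      (∀ v : V, h ≤ {w : V | w ≠ v ∧ G.Adj v w}.ncard) →
      ∃ f : Fin k → V, Function.Injective f ∧
        ∃ L : Fin k → Fin k → ℕ, ∃ p : Fin k → Fin k → ℕ → V,
          (∀ i j : Fin k, i < j →
              p i j 0 = f i ∧ p i j (L i j) = f j ∧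
              (∀ t : ℕ, t < L i j → G.Adj (p i j t) (p i j (t + 1))) ∧
              (∀ s t : ℕ, s ≤ L i j → t ≤ L i j → p i j s = p i j t → s = t) ∧
              (∀ (t : ℕ) (m : Fin k), 0 < t → t < L i j → p i j t ≠ f m)) ∧
          (∀ i j i' j' : Fin k, i < j → i' < j' → (i ≠ i' ∨ j ≠ j') →
              ∀ s t : ℕ, 0 < s → s < L i j → 0 < t → t < L i' j' →
                p i j s ≠ p i' j' t) := by
  classical
  set K : ℝ := (k : ℝ) + 1 with hK
  have hk0 : (0 : ℝ) ≤ k := Nat.cast_nonneg k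
  have hK1 : 1 ≤ K := by linarith
  have hK0 : 0 < K := by linarith
  have hkK : (k : ℝ) ≤ K := by linarith
  set eps : ℝ := (1 / (2 * K ^ 4)) ^ 2 with heps
  have hs0 : 0 < 1 / (2 * K ^ 4) := by positivity
  have heps0 : 0 < eps := by positivity
  have hsq : Real.sqrt eps = 1 / (2 * K ^ 4) := by
    rw [heps, Real.sqrt_sq hs0.le]
  have heps1 : eps ≤ 1 := by
    rw [heps]
    have : 1 / (2 * K ^ 4) ≤ 1 := by
      rw [div_le_one (by positivity)]
      nlinarith [one_le_pow₀ hK1 (n := 4)]
    exact pow_le_one₀ hs0.le this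
  set lam : ℝ := 1 / (100 * K) with hlam
  have hlam0 : 0 < lam := by positivity
  have hlam1 : lam ≤ 1 := by
    rw [hlam, div_le_one (by positivity)]
    linarith
  set κ : ℝ := 100 * K / eps with hκ
  have hκ1 : 1 ≤ κ := by
    rw [hκ, le_div_iff₀ heps0]
    linarith
  have hsmall : (k : ℝ) * (9 * lam + 4 / (eps * κ)) < 1 := by
    have h1 : eps * κ = 100 * K := by
      rw [hκ]
      field_simp
    rw [h1, hlam]
    have h2 : (9 * (1 / (100 * K)) + 4 / (100 * K)) = 13 / 100 / K := by
      field_simp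
      norm_num
    rw [h2, mul_div_assoc', div_lt_one hK0]
    linarith
  obtain ⟨D, hD⟩ := claim hlam0 hlam1 heps0 k k le_rfl κ hκ1 hsmall 1 one_pos
  refine ⟨D, fun V _ _ G hG => ?_⟩
  set adj : V → V → Prop := fun v w => w ≠ v ∧ G.Adj v w with hadj
  obtain ⟨v0⟩ := (inferInstance : Nonempty V)
  obtain ⟨y, τ, -, hy, hRP⟩ := hD V adj (fun _ _ => True) ∅ (Fintype.card V) (fun v => by
      refine ⟨univ.filter fun w => adj v w, ?_, fun w hw => ⟨(mem_filter.1 hw).2, by simp⟩⟩
      have h1 := hG v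
      rwa [Set.ncard_eq_toFinset_card', Set.toFinset_ofPred] at h1) (by
      refine ⟨v0, Fintype.card V, le_rfl, trivial, fun h hh => ?_⟩
      have h1 := top_energy (N := Fintype.card V) (k := κ) (by linarith) hh
      have h2 : (1 : ℝ) ≤ Fintype.card V := by
        exact_mod_cast Fintype.card_pos_iff.2 ⟨v0⟩
      have h3 : (Fintype.card V : ℝ) ≤ ip (Fintype.card V + 1) κ h h := by
        rw [sq] at h1
        exact le_of_mul_le_mul_left h1 (by linarith)
      linarith)
  choose! q q0 q1 q2 q3 using hRP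
  obtain ⟨F, hF0, hF1, hF2⟩ := exists_choice (I := {x : Fin k × Fin k // x.1 < x.2})
    (W V (Fintype.card V)) (fun x => q x.1.1 x.1.2) (fun x => q0 _ _ x.2)
    (fun x => q2 _ _ x.2) heps0.le (fun x => q3 _ _ x.2) (univ.image y) (by
      have hI : (Fintype.card {x : Fin k × Fin k // x.1 < x.2} : ℝ) ≤ K ^ 2 := by
        have h1 : Fintype.card {x : Fin k × Fin k // x.1 < x.2} ≤ k * k := by
          refine (Fintype.card_subtype_le _).trans ?_
          simp
        have h2 : (Fintype.card {x : Fin k × Fin k // x.1 < x.2} : ℝ) ≤ (k : ℝ) * k := by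
          exact_mod_cast h1
        nlinarith
      have hY : (((univ.image y).card : ℕ) : ℝ) ≤ K := by
        have h1 : (univ.image y).card ≤ k := card_image_le.trans (by simp)
        have h2 : (((univ.image y).card : ℕ) : ℝ) ≤ k := by exact_mod_cast h1
        linarith
      have hI0 : (0 : ℝ) ≤ Fintype.card {x : Fin k × Fin k // x.1 < x.2} := Nat.cast_nonneg _
      have hY0 : (0 : ℝ) ≤ (((univ.image y).card : ℕ) : ℝ) := Nat.cast_nonneg _
      rw [hsq]
      have e1 : (Fintype.card {x : Fin k × Fin k // x.1 < x.2} : ℝ) ^ 2 * eps ≤ 1 / 4 := by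
        calc _ ≤ (K ^ 2) ^ 2 * eps := by gcongr
          _ = 1 / (4 * K ^ 4) := by
            rw [heps]
            field_simp
            norm_num
          _ ≤ 1 / 4 := by
            apply one_div_le_one_div_of_le (by norm_num)
            nlinarith [one_le_pow₀ hK1 (n := 4)]
      have e2 : (Fintype.card {x : Fin k × Fin k // x.1 < x.2} : ℝ) *
          ((((univ.image y).card : ℕ) : ℝ) * (1 / (2 * K ^ 4))) ≤ 1 / 2 := by
        calc _ ≤ K ^ 2 * (K * (1 / (2 * K ^ 4))) := by gcongr
          _ = 1 / (2 * K) := by field_simp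
          _ ≤ 1 / 2 := by
            apply one_div_le_one_div_of_le (by norm_num)
            linarith
      linarith)
  have hpath : ∀ i j : Fin k, ∃ (L : ℕ) (p : ℕ → V), i < j → (p 0 = y i ∧ p L = y j ∧
      (∀ t, t < L → adj (p t) (p (t + 1))) ∧ (∀ s t, s ≤ L → t ≤ L → p s = p t → s = t) ∧
      ∀ t, 0 < t → t < L → ∀ hij : i < j, p t ∈ F ⟨(i, j), hij⟩) := by
    intro i j
    by_cases hij : i < j
    · obtain ⟨L, p, a1, a2, a3, a4, a5⟩ := path_of_chain (y i) (y j) (F ⟨(i, j), hij⟩)
        (q1 i j hij _ (hF0 ⟨(i, j), hij⟩))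
      exact ⟨L, p, fun _ => ⟨a1, a2, a3, a4, fun t h1 h2 _ => a5 t h1 h2⟩⟩
    · exact ⟨0, fun _ => v0, fun h => absurd h hij⟩
  choose L p hp using hpath
  refine ⟨y, hy, L, p, fun i j hij => ?_, ?_⟩
  · obtain ⟨a1, a2, a3, a4, a5⟩ := hp i j hij
    refine ⟨a1, a2, fun t ht => (a3 t ht).2, a4, fun t m h1 h2 he => ?_⟩
    exact hF2 ⟨(i, j), hij⟩ (y m) (mem_image_of_mem y (mem_univ m)) (he ▸ a5 t h1 h2 hij)
  · intro i j i' j' hij hij' hne s t hs0 hs ht0 ht he
    obtain ⟨-, -, -, -, a5⟩ := hp i j hij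
    obtain ⟨-, -, -, -, b5⟩ := hp i' j' hij'
    have h1 := a5 s hs0 hs hij
    have h2 := b5 t ht0 ht hij'
    rw [← he] at h2
    refine hF1 ⟨(i, j), hij⟩ ⟨(i', j'), hij'⟩ ?_ _ h1 h2
    intro h
    have h3 : (i, j) = (i', j') := congrArg Subtype.val h
    rcases hne with h4 | h4
    · exact h4 (congrArg Prod.fst h3)
    · exact h4 (congrArg Prod.snd h3)

end Pool.Agent.H81.TTK
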