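import Pool.Agent.H81.TTK.Basic

/-!
# Decomposition of an inner walk at its exit
-/

set_option autoImplicit false

namespace Pool.Agent.H81.TTK

open Finset

variable {V : Type*} [Fintype V] [DecidableEq V] {adj : V → V → Prop} {P P' : V → ℕ → Prop}
  {X X' : Finset V}

/-- Every vector `g` of an inner walk (states `P'`, vertices outside `X'`) has an exit
decomposition: `B t' w` is the part of the walks which leave `P'` at the state `(w, t')` of `P`, and
continuing there with any outer vector gives an outer vector. -/
theorem exits (hPP : ∀ w t, P' w t → P w t) (hX : X ⊆ X') {t : ℕ} {v : V} {g : List V → ℝ}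
    (hg : g ∈ Hs adj P' X' t v) : ∃ B : ℕ → V → List V → ℝ,
      (∀ t' w Z, 0 ≤ B t' w Z) ∧
      (∀ t' w Z, B t' w Z ≠ 0 → t' < t ∧ P w t' ∧ ¬ P' w t' ∧ w ∉ X') ∧
      (∀ Z, ∑ t' ∈ range t, ∑ w, B t' w Z ≤ g Z) ∧
      ∀ K : ℕ → V → List V → ℝ, (∀ t' w, P w t' → K t' w ∈ Hs adj P X t' w) →
        (fun Z => g Z + ∑ t' ∈ range t, ∑ w, conv (B t' w) (pre w (K t' w)) Z) ∈
          Hs adj P X t v := by
  classical
  induction t generalizing v g with
  | zero =>
    rw [hs_zero, Set.mem_singleton_iff] at hg
    refine ⟨fun _ _ _ => 0, fun _ _ _ => le_rfl, fun _ _ _ h => absurd rfl h, fun Z => ?_,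
      fun K _ => ?_⟩
    · rw [hg]
      simpa using one_nonneg Z
    · rw [hs_zero, Set.mem_singleton_iff, hg]
      funext Z
      simp
  | succ t ih =>
    obtain ⟨α, k, h0, h1, h2, h3, h4, h5⟩ := hg
    have h6 : ∀ w, ∃ B : ℕ → V → List V → ℝ, P' w t →
      (∀ t' u Z, 0 ≤ B t' u Z) ∧
      (∀ t' u Z, B t' u Z ≠ 0 → t' < t ∧ P u t' ∧ ¬ P' u t' ∧ u ∉ X') ∧
      (∀ Z, ∑ t' ∈ range t, ∑ u, B t' u Z ≤ k w Z) ∧
      ∀ K : ℕ → V → List V → ℝ, (∀ t' w, P w t' → K t' w ∈ Hs adj P X t' w) →
        (fun Z => k w Z + ∑ t' ∈ range t, ∑ u, conv (B t' u) (pre u (K t' u)) Z) ∈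
          Hs adj P X t w := by
      intro w
      by_cases hw : P' w t
      · obtain ⟨B, hB⟩ := ih (h3 w hw)
        exact ⟨B, fun _ => hB⟩
      · exact ⟨fun _ _ _ => 0, fun h => absurd h hw⟩
    choose B hB using h6
    -- the contribution of the first step `w`
    set F : V → ℕ → V → List V → ℝ := fun w t' u Z =>
      if P' w t then pre w (B w t' u) Z else if t' = t ∧ u = w ∧ P w t then one Z else 0 with hF
    have hF0 : ∀ w t' u Z, 0 ≤ F w t' u Z := by
      intro w t' u Z
      simp only [hF]
      split_ifs with ha hb
      · exact pre_nonneg (fun Z => (hB w ha).1 t' u Z) Z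
      · exact one_nonneg Z
      · exact le_rfl
    have hFt : ∀ w u Z, P' w t → F w t u Z = 0 := by
      intro w u Z hw
      have hz : ∀ Z, B w t u Z = 0 := fun Z => by
        by_contra hne
        exact absurd ((hB w hw).2.1 t u Z hne).1 (lt_irrefl t)
      simp only [hF, if_pos hw]
      cases Z with
      | nil => rw [pre_nil, hz]
      | cons a Z => simp [pre_cons, hz]
    refine ⟨fun t' u Z => ∑ w, α w * F w t' u Z, fun t' u Z =>
      sum_nonneg fun w _ => mul_nonneg (h0 w) (hF0 w t' u Z), ?_, ?_, ?_⟩
    · intro t' u Z hne
      obtain ⟨w, _, hw⟩ := exists_ne_zero_of_sum_ne_zero hne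
      have hα : α w ≠ 0 := left_ne_zero_of_mul hw
      have hFne : F w t' u Z ≠ 0 := right_ne_zero_of_mul hw
      by_cases hP' : P' w t
      · simp only [hF, if_pos hP'] at hFne
        have : ∃ Y, B w t' u Y ≠ 0 := by
          by_contra hcon
          push_neg at hcon
          apply hFne
          cases Z with
          | nil => rw [pre_nil, hcon]
          | cons a Z => simp [pre_cons, hcon]
        obtain ⟨Y, hY⟩ := this
        obtain ⟨a, b⟩ := (hB w hP').2.1 t' u Y hY
        exact ⟨by omega, b⟩
      · simp only [hF, if_neg hP'] at hFne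
        split_ifs at hFne with hc
        · obtain ⟨rfl, rfl, hPw⟩ := hc
          exact ⟨by omega, hPw, hP', (h2 u hα).2⟩
        · exact absurd rfl hFne
    · intro Z
      have e : ∑ t' ∈ range (t + 1), ∑ u, ∑ w, α w * F w t' u Z =
          ∑ w, α w * ∑ t' ∈ range (t + 1), ∑ u, F w t' u Z := by
        rw [sum_congr rfl fun t' _ => sum_comm, sum_comm]
        refine sum_congr rfl fun w _ => ?_
        rw [mul_sum]
        exact sum_congr rfl fun t' _ => by rw [mul_sum]
      rw [e, h5]
      refine sum_le_sum fun w _ => mul_le_mul_of_nonneg_left ?_ (h0 w)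
      by_cases hP' : P' w t
      · rw [if_pos hP', sum_range_succ, sum_eq_zero (fun u _ => hFt w u Z hP'), add_zero]
        have e2 : ∑ t' ∈ range t, ∑ u, F w t' u Z =
            pre w (fun Z => ∑ t' ∈ range t, ∑ u, B w t' u Z) Z := by
          rw [pre_sum]
          refine sum_congr rfl fun t' _ => ?_
          rw [pre_sum]
          exact sum_congr rfl fun u _ => by simp only [hF, if_pos hP']
        rw [e2]
        exact pre_mono (hB w hP').2.2.1 Z
      · rw [if_neg hP']
        by_cases hPw : P w t
        · refine le_of_eq ?_
          rw [sum_eq_single_of_mem t (self_mem_range_succ t)]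
          · rw [sum_eq_single_of_mem w (mem_univ w)]
            · simp [hF, hP', hPw]
            · intro u _ hu
              simp [hF, hP', hu]
          · intro t' _ ht'
            exact sum_eq_zero fun u _ => by simp [hF, hP', ht']
        · refine le_trans (le_of_eq ?_) (one_nonneg Z)
          exact sum_eq_zero fun t' _ => sum_eq_zero fun u _ => by simp [hF, hP', hPw]
    · intro K hK
      refine ⟨α, fun w => if P' w t then (fun Z => k w Z + ∑ t' ∈ range t, ∑ u,
        conv (B w t' u) (pre u (K t' u)) Z) else if P w t then K t w else one, h0, h1,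
        fun w hw => ⟨(h2 w hw).1, fun hX1 => (h2 w hw).2 (hX hX1)⟩, ?_, ?_, ?_⟩
      · intro w hw
        dsimp only
        split_ifs with hP'
        · exact (hB w hP').2.2.2 K hK
        · exact hK t w hw
      · intro w hw
        dsimp only
        rw [if_neg (fun h => hw (hPP w t h)), if_neg hw]
      · intro Z
        have e : ∑ t' ∈ range (t + 1), ∑ u, conv (fun Z => ∑ w, α w * F w t' u Z)
            (pre u (K t' u)) Z =
            ∑ w, α w * ∑ t' ∈ range (t + 1), ∑ u, conv (F w t' u) (pre u (K t' u)) Z := by
          rw [sum_congr rfl fun t' _ => sum_congr rfl fun u _ =>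
            conv_sum_left univ α (fun w => F w t' u) (pre u (K t' u)) Z,
            sum_congr rfl fun t' _ => sum_comm, sum_comm]
          refine sum_congr rfl fun w _ => ?_
          rw [mul_sum]
          exact sum_congr rfl fun t' _ => by rw [mul_sum]
        dsimp only
        rw [e, h5, ← sum_add_distrib]
        refine sum_congr rfl fun w _ => ?_
        rw [← mul_add]
        congr 1
        by_cases hP' : P' w t
        · rw [if_pos hP', if_pos hP', if_pos (hPP w t hP'), pre_add, sum_range_succ]
          have e3 : ∑ u, conv (F w t u) (pre u (K t u)) Z = 0 := by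
            refine sum_eq_zero fun u _ => ?_
            have : F w t u = fun _ => 0 := funext fun Z => hFt w u Z hP'
            rw [this, conv_zero_left]
          rw [e3, add_zero]
          congr 1
          rw [pre_sum]
          refine sum_congr rfl fun t' _ => ?_
          rw [pre_sum]
          refine sum_congr rfl fun u _ => ?_
          rw [← conv_pre]
          have : F w t' u = pre w (B w t' u) := funext fun Z => by simp only [hF, if_pos hP']
          rw [this]
        · rw [if_neg hP', if_neg hP']
          by_cases hPw : P w t
          · rw [if_pos hPw, if_pos hPw]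
            have e4 : ∑ t' ∈ range (t + 1), ∑ u, conv (F w t' u) (pre u (K t' u)) Z =
                conv one (pre w (K t w)) Z := by
              rw [sum_eq_single_of_mem t (self_mem_range_succ t)]
              · rw [sum_eq_single_of_mem w (mem_univ w)]
                · congr 1
                  funext Z
                  simp [hF, hP', hPw]
                · intro u _ hu
                  have : F w t u = fun _ => 0 := funext fun Z => by simp [hF, hP', hu]
                  rw [this, conv_zero_left]
              · intro t' _ ht'
                refine sum_eq_zero fun u _ => ?_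
                have : F w t' u = fun _ => 0 := funext fun Z => by simp [hF, hP', ht']
                rw [this, conv_zero_left]
            rw [e4]
            by_cases hZ : Z = []
            · subst hZ
              rw [one_nil, conv_nil, pre_nil, hs_nil (hK t w hPw), add_zero]
            · rw [one_ne hZ, conv_one hZ, zero_add]
          · rw [if_neg hPw]
            have e5 : ∑ t' ∈ range (t + 1), ∑ u, conv (F w t' u) (pre u (K t' u)) Z = 0 := by
              refine sum_eq_zero fun t' _ => sum_eq_zero fun u _ => ?_
              have : F w t' u = fun _ => 0 := funext fun Z => by simp [hF, hP', hPw]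
              rw [this, conv_zero_left]
            rw [e5, add_zero]

end Pool.Agent.H81.TTK
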