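import Pool.Agent.H81.TTK.Basic

/-!
# Norms of prefixed vectors
-/

set_option autoImplicit false

namespace Pool.Agent.H81.TTK

open Finset

variable {V : Type*} [Fintype V] [DecidableEq V]

theorem sum_W_succ (N : ℕ) (F : List V → ℝ) :
    ∑ Z ∈ W V (N + 1), F Z = F [] + ∑ a, ∑ Z ∈ W V N, F (a :: Z) := by
  have h : W V (N + 1) = insert [] ((univ ×ˢ W V N).image fun p : V × List V => p.1 :: p.2) := by
    ext Z
    simp only [mem_W, mem_insert, mem_image, mem_product, mem_univ, true_and, Prod.exists]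
    constructor
    · intro hZ
      cases Z with
      | nil => exact Or.inl rfl
      | cons a Z => exact Or.inr ⟨a, Z, by simpa using hZ, rfl⟩
    · rintro (rfl | ⟨a, Z', hZ, rfl⟩)
      · simp
      · simpa using hZ
  rw [h, sum_insert (by simp), sum_image (by
    rintro ⟨a, b⟩ _ ⟨a', b'⟩ _ e
    simp only [List.cons.injEq] at e
    exact Prod.ext e.1 e.2), sum_product]

/-- The inner product which counts the empty word. -/
def ip0 (N : ℕ) (k : ℝ) (f g : List V → ℝ) : ℝ := ∑ Z ∈ W V N, k ^ Z.length * (f Z * g Z)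

theorem ip_succ (N : ℕ) (k : ℝ) (f g : List V → ℝ) :
    ip (N + 1) k f g = ∑ a, ip0 N k (fun Z => f (a :: Z)) (fun Z => g (a :: Z)) := by
  rw [ip, sum_W_succ]
  simp only [wt_cons, ip0]
  rw [show wt k ([] : List V) = 0 from if_pos rfl, zero_mul, zero_add]

theorem ip0_eq (N : ℕ) (k : ℝ) (f g : List V → ℝ) :
    ip0 N k f g = f [] * g [] + k * ip N k f g := by
  have h : ∀ Z ∈ W V N, k ^ Z.length * (f Z * g Z) =
      (if Z = [] then f [] * g [] else 0) + k * (wt k Z * (f Z * g Z)) := by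
    intro Z _
    by_cases hZ : Z = []
    · subst hZ
      simp [wt]
    · rw [if_neg hZ, wt, if_neg hZ]
      have : 0 < Z.length := List.length_pos_iff.2 hZ
      obtain ⟨m, hm⟩ : ∃ m, Z.length = m + 1 := ⟨Z.length - 1, by omega⟩
      rw [hm, Nat.add_sub_cancel, pow_succ]
      ring
  rw [ip0, sum_congr rfl h, sum_add_distrib, ← mul_sum, sum_ite_eq' (W V N) [] , if_pos
    (mem_W.2 (by simp)), ip]

theorem ip_le_succ {N : ℕ} {k : ℝ} (hk : 0 ≤ k) (f : List V → ℝ) :
    ip N k f f ≤ ip (N + 1) k f f := by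
  refine sum_le_sum_of_subset_of_nonneg (fun Z hZ => mem_W.2 (by have := mem_W.1 hZ; omega)) ?_
  exact fun Z _ _ => mul_nonneg (wt_nonneg hk Z) (mul_self_nonneg _)

theorem ip0_self_nonneg {N : ℕ} {k : ℝ} (hk : 0 ≤ k) (f : List V → ℝ) : 0 ≤ ip0 N k f f :=
  sum_nonneg fun Z _ => mul_nonneg (pow_nonneg hk _) (mul_self_nonneg _)

theorem ip0_sq_le {N : ℕ} {k : ℝ} (hk : 0 ≤ k) (f g : List V → ℝ) :
    ip0 N k f g ^ 2 ≤ ip0 N k f f * ip0 N k g g := by
  have h := sum_mul_sq_le_sq_mul_sq (W V N) (fun Z => Real.sqrt (k ^ Z.length) * f Z)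
    (fun Z => Real.sqrt (k ^ Z.length) * g Z)
  have e : ∀ Z : List V, Real.sqrt (k ^ Z.length) * Real.sqrt (k ^ Z.length) = k ^ Z.length :=
    fun Z => Real.mul_self_sqrt (pow_nonneg hk _)
  have e1 : ∀ a b : List V → ℝ, ip0 N k a b =
      ∑ Z ∈ W V N, (Real.sqrt (k ^ Z.length) * a Z) * (Real.sqrt (k ^ Z.length) * b Z) :=
    fun a b => by
      unfold ip0
      exact sum_congr rfl fun Z _ => by
        rw [mul_mul_mul_comm, e]
  rw [e1, e1 f f, e1 g g]
  simpa only [sq] using h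

theorem ip0_le {N : ℕ} {k : ℝ} (hk : 0 ≤ k) {f g : List V → ℝ} {a b : ℝ} (ha : 0 ≤ a) (hb : 0 ≤ b)
    (hf : ip0 N k f f ≤ a ^ 2) (hg : ip0 N k g g ≤ b ^ 2) : ip0 N k f g ≤ a * b := by
  have h := ip0_sq_le (N := N) hk f g
  have h2 : ip0 N k f g ^ 2 ≤ (a * b) ^ 2 := by
    rw [mul_pow]
    exact h.trans (mul_le_mul hf hg (ip0_self_nonneg hk g) (sq_nonneg a))
  exact abs_le_of_sq_le_sq' h2 (mul_nonneg ha hb) |>.2

theorem ip_sh_left (N : ℕ) (k : ℝ) (w : V) (h g : List V → ℝ) :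
    ip (N + 1) k (sh w h) g = ip0 N k h (fun Z => g (w :: Z)) := by
  rw [ip_succ, sum_eq_single_of_mem w (mem_univ w)]
  · simp only [ip0, sh_cons, if_true]
  · intro a _ ha
    simp [ip0, sh_cons, ha]

theorem ip_sh_self_le {N : ℕ} {k M : ℝ} (hk : 0 ≤ k) (hM : 0 ≤ M) (w : V) {h : List V → ℝ}
    (h1 : h [] = 1) (hh : ip (N + 1) k h h ≤ M ^ 2) :
    ip (N + 1) k (sh w h) (sh w h) ≤ 1 + k * M ^ 2 := by
  rw [ip_sh_left]
  simp only [sh_cons, if_true]
  rw [ip0_eq, h1, one_mul]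
  have := (ip_le_succ (N := N) hk h).trans hh
  nlinarith [mul_le_mul_of_nonneg_left this hk]

/-- Minkowski's inequality. -/
theorem ip_add_self_le {N : ℕ} {k : ℝ} (hk : 0 ≤ k) {f g : List V → ℝ} {a b : ℝ} (ha : 0 ≤ a)
    (hb : 0 ≤ b) (hf : ip N k f f ≤ a ^ 2) (hg : ip N k g g ≤ b ^ 2) :
    ip N k (fun Z => f Z + g Z) (fun Z => f Z + g Z) ≤ (a + b) ^ 2 := by
  rw [ip_add_left, ip_comm N k f, ip_comm N k g, ip_add_left, ip_add_left]
  have h := ip_le hk ha hb hf hg
  have e := ip_comm N k g f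
  nlinarith

theorem one_add_le {k M : ℝ} (hk : 0 ≤ k) (hM : 0 ≤ M) :
    1 + k * M ^ 2 ≤ (1 + Real.sqrt k * M) ^ 2 := by
  have := Real.sq_sqrt hk
  have h0 := mul_nonneg (Real.sqrt_nonneg k) hM
  nlinarith

theorem ip_pre_self_le {N : ℕ} {k M : ℝ} (hk : 0 ≤ k) (hM : 0 ≤ M) (w : V) {h : List V → ℝ}
    (h1 : h [] = 1) (hh : ip (N + 1) k h h ≤ M ^ 2) :
    ip (N + 1) k (pre w h) (pre w h) ≤ (M + (1 + Real.sqrt k * M)) ^ 2 :=
  ip_add_self_le hk hM (add_nonneg zero_le_one (mul_nonneg (Real.sqrt_nonneg k) hM)) hh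
    ((ip_sh_self_le hk hM w h1 hh).trans (one_add_le hk hM))

theorem ip_pre_le {N : ℕ} {k M c : ℝ} (hk : 0 ≤ k) (hM : 0 ≤ M) (hc : 0 ≤ c) (w : V)
    {h g : List V → ℝ} (h1 : h [] = 1) (hh : ip (N + 1) k h h ≤ M ^ 2)
    (hg : ip0 N k (fun Z => g (w :: Z)) (fun Z => g (w :: Z)) ≤ c ^ 2) :
    ip (N + 1) k (pre w h) g ≤ ip (N + 1) k h g + (1 + Real.sqrt k * M) * c := by
  unfold pre
  rw [ip_add_left, ip_sh_left]
  have h2 : ip0 N k h h ≤ (1 + Real.sqrt k * M) ^ 2 := by
    rw [ip0_eq, h1, one_mul]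
    have := (ip_le_succ (N := N) hk h).trans hh
    have h3 := one_add_le hk hM
    nlinarith [mul_le_mul_of_nonneg_left this hk]
  have := ip0_le hk (add_nonneg zero_le_one (mul_nonneg (Real.sqrt_nonneg k) hM)) hc h2 hg
  linarith

/-- The norm of a vector after a uniform first step. -/
theorem first_step {N : ℕ} {k f : ℝ} (hk : 0 ≤ k) (hf : 0 ≤ f) (A : Finset V) (hA : 0 < A.card)
    (Q : V → Prop) [DecidablePred Q] (G : V → List V → ℝ) (h1 : ∀ w, Q w → G w [] = 1)
    (hG : ∀ w, Q w → ip (N + 1) k (G w) (G w) ≤ f ^ 2) :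
    ip (N + 1) k
      (fun Z => ∑ w, (if w ∈ A then (A.card : ℝ)⁻¹ else 0) * (if Q w then pre w (G w) Z else one Z))
      (fun Z => ∑ w, (if w ∈ A then (A.card : ℝ)⁻¹ else 0) *
        (if Q w then pre w (G w) Z else one Z)) ≤
      (f + Real.sqrt ((A.card : ℝ)⁻¹) * (1 + Real.sqrt k * f)) ^ 2 := by
  set α : V → ℝ := fun w => if w ∈ A then (A.card : ℝ)⁻¹ else 0 with hα
  have hA' : (0 : ℝ) < A.card := by exact_mod_cast hA
  have hα0 : ∀ w, 0 ≤ α w := fun w => by
    simp only [hα]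
    split_ifs <;> positivity
  have hα1 : ∑ w, α w = 1 := by
    simp only [hα, sum_ite_mem, univ_inter, sum_const, nsmul_eq_mul]
    exact mul_inv_cancel₀ hA'.ne'
  set G' : V → List V → ℝ := fun w Z => if Q w then G w Z else 0 with hG'
  have e : ∀ Z : List V, Z ≠ [] → ∑ w, α w * (if Q w then pre w (G w) Z else one Z) =
      (∑ w, α w * G' w Z) + ∑ w, α w * sh w (G' w) Z := by
    intro Z hZ
    rw [← sum_add_distrib]
    refine sum_congr rfl fun w _ => ?_
    rw [← mul_add]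
    congr 1
    by_cases hw : Q w
    · rw [if_pos hw]
      have : G' w = G w := funext fun Z => by simp [hG', hw]
      rw [this]
      rfl
    · rw [if_neg hw, one_ne hZ]
      have : G' w = fun _ => 0 := funext fun Z => by simp [hG', hw]
      rw [this]
      cases Z with
      | nil => exact absurd rfl hZ
      | cons a Z => simp [sh_cons]
  have e' : ip (N + 1) k (fun Z => ∑ w, α w * (if Q w then pre w (G w) Z else one Z))
      (fun Z => ∑ w, α w * (if Q w then pre w (G w) Z else one Z)) =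
      ip (N + 1) k (fun Z => (∑ w, α w * G' w Z) + ∑ w, α w * sh w (G' w) Z)
        (fun Z => (∑ w, α w * G' w Z) + ∑ w, α w * sh w (G' w) Z) := by
    refine sum_congr rfl fun Z _ => ?_
    by_cases hZ : Z = []
    · simp [wt, hZ]
    · dsimp only
      rw [e Z hZ]
  rw [e']
  refine ip_add_self_le hk hf (by positivity) ?_ ?_
  · have := ip_sum_self_le univ hk α (fun w _ => hα0 w) G' hf (N := N + 1) (fun w _ => ?_)
    · rwa [hα1, one_mul] at this
    · by_cases hw : Q w
      · have : G' w = G w := funext fun Z => by simp [hG', hw]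
        rw [this]
        exact hG w hw
      · have : G' w = fun _ => 0 := funext fun Z => by simp [hG', hw]
        rw [this]
        simp only [ip, mul_zero, sum_const_zero]
        positivity
  · rw [ip_succ]
    have h3 : ∀ a, ip0 N k (fun Z => ∑ w, α w * sh w (G' w) (a :: Z))
        (fun Z => ∑ w, α w * sh w (G' w) (a :: Z)) ≤ α a ^ 2 * (1 + k * f ^ 2) := by
      intro a
      have h4 : ∀ Z : List V, ∑ w, α w * sh w (G' w) (a :: Z) = α a * G' a Z := by
        intro Z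
        rw [sum_eq_single_of_mem a (mem_univ a)]
        · rw [sh_cons, if_pos rfl]
        · intro w _ hw
          rw [sh_cons, if_neg (Ne.symm hw), mul_zero]
      have h5 : ip0 N k (fun Z => ∑ w, α w * sh w (G' w) (a :: Z))
          (fun Z => ∑ w, α w * sh w (G' w) (a :: Z)) = α a ^ 2 * ip0 N k (G' a) (G' a) := by
        rw [ip0, ip0, mul_sum]
        exact sum_congr rfl fun Z _ => by rw [h4]; ring
      rw [h5]
      refine mul_le_mul_of_nonneg_left ?_ (sq_nonneg _)
      by_cases hw : Q a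
      · have : G' a = G a := funext fun Z => by simp [hG', hw]
        rw [this, ip0_eq, h1 a hw, one_mul]
        have := (ip_le_succ (N := N) hk (G a)).trans (hG a hw)
        nlinarith [mul_le_mul_of_nonneg_left this hk]
      · have : G' a = fun _ => 0 := funext fun Z => by simp [hG', hw]
        rw [this]
        simp only [ip0, mul_zero, sum_const_zero]
        positivity
    refine (sum_le_sum fun a _ => h3 a).trans ?_
    rw [← sum_mul]
    have h6 : ∑ a, α a ^ 2 = (A.card : ℝ)⁻¹ := by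
      have : ∀ a, α a ^ 2 = if a ∈ A then ((A.card : ℝ)⁻¹) ^ 2 else 0 := fun a => by
        simp only [hα]
        split_ifs <;> simp
      simp only [this, sum_ite_mem, univ_inter, sum_const, nsmul_eq_mul]
      field_simp
    rw [h6, mul_pow, Real.sq_sqrt (by positivity)]
    exact mul_le_mul_of_nonneg_left (one_add_le hk hf) (by positivity)

end Pool.Agent.H81.TTK
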