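import Pool.Agent.H81.TTK.Exit
import Pool.Agent.H81.TTK.Norm

/-!
# The rigidity inequality
-/

set_option autoImplicit false

namespace Pool.Agent.H81.TTK

open Finset

variable {V : Type*} [Fintype V] [DecidableEq V] {adj : V → V → Prop} {P P' : V → ℕ → Prop}
  {X X' : Finset V}

theorem ip_mono_k {N : ℕ} {k k' : ℝ} (hk : 0 ≤ k) (hkk : k ≤ k') (f : List V → ℝ) :
    ip N k f f ≤ ip N k' f f := by
  refine sum_le_sum fun Z _ => mul_le_mul_of_nonneg_right ?_ (mul_self_nonneg _)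
  unfold wt
  split_ifs
  · exact le_rfl
  · exact pow_le_pow_left₀ hk hkk _

/-- Lemma A. If the state `x = (v, t + 1)` has the largest minimal energy `M ^ 2` (weight `k`), `P'`
contains all states of `P` outside the heavy vertices whose minimal vector has inner product at
least `(1 - lam) M ^ 2` with that of `x`, and all states of `P'` have inner vectors of energy at
most `f ^ 2` (weight `k'`), then `f` is not small. -/
theorem lemA {N t : ℕ} {k k' M f lam th : ℝ} (hk : 0 < k) (hkk : 2 * k ≤ k') (hM : 0 < M)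
    (hf : 0 ≤ f) (hlam1 : lam ≤ 1) (hth : 0 ≤ th) (hPP : ∀ w t, P' w t → P w t) (hX : X ⊆ X')
    (htN : t ≤ N) {v : V} {hx : List V → ℝ} (hxH : hx ∈ Hs adj P X (t + 1) v)
    (hxM : ip (N + 1) k hx hx ≤ M ^ 2)
    (hmin : ∀ h ∈ Hs adj P X (t + 1) v, M ^ 2 ≤ ip (N + 1) k h hx)
    (K : ℕ → V → List V → ℝ) (hK : ∀ t' w, P w t' → K t' w ∈ Hs adj P X t' w)
    (hKM : ∀ t' w, t' ≤ t → P w t' → ip (N + 1) k (K t' w) (K t' w) ≤ M ^ 2)
    (hphi : ∀ t' w, t' ≤ t → P w t' → ¬ P' w t' → w ∉ X' →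
      ip (N + 1) k (K t' w) hx ≤ (1 - lam) * M ^ 2)
    (hheavy : ∀ w, w ∉ X' → ip0 N k (fun Z => hx (w :: Z)) (fun Z => hx (w :: Z)) ≤ (th * M) ^ 2)
    (hG : ∀ w, P' w t → ∃ g ∈ Hs adj P' X' t w, ip (N + 1) k' g g ≤ f ^ 2)
    (A : Finset V) (hA : ∀ w ∈ A, adj v w ∧ w ∉ X') (hcard : 0 < A.card) :
    lam * M ≤ (f + Real.sqrt ((A.card : ℝ)⁻¹) * (1 + Real.sqrt k' * f)) *
      (1 + Real.sqrt k' * (M + (1 + Real.sqrt k * M))) + (1 + Real.sqrt k * M) * th := by
  classical
  have hk' : 0 < k' := by linarith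
  set F1 : ℝ := f + Real.sqrt ((A.card : ℝ)⁻¹) * (1 + Real.sqrt k' * f) with hF1
  have hF10 : 0 ≤ F1 := by positivity
  set C : ℝ := M + (1 + Real.sqrt k * M) with hC
  have hC0 : 0 ≤ C := by positivity
  have hG' : ∀ w, ∃ g : List V → ℝ, P' w t → g ∈ Hs adj P' X' t w ∧
      ip (N + 1) k' g g ≤ f ^ 2 := by
    intro w
    by_cases hw : P' w t
    · obtain ⟨g, h1, h2⟩ := hG w hw
      exact ⟨g, fun _ => ⟨h1, h2⟩⟩
    · exact ⟨one, fun h => absurd h hw⟩
  choose G hGG using hG'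
  set g : List V → ℝ := fun Z => ∑ w, (if w ∈ A then (A.card : ℝ)⁻¹ else 0) *
    (if P' w t then pre w (G w) Z else one Z) with hg
  have hA' : (0 : ℝ) < A.card := by exact_mod_cast hcard
  have hgH : g ∈ Hs adj P' X' (t + 1) v := by
    refine ⟨fun w => if w ∈ A then (A.card : ℝ)⁻¹ else 0, fun w => if P' w t then G w else one,
      ?_, ?_, ?_, ?_, ?_, ?_⟩
    · intro w
      dsimp only
      split_ifs <;> positivity
    · simp only [sum_ite_mem, univ_inter, sum_const, nsmul_eq_mul]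
      exact mul_inv_cancel₀ hA'.ne'
    · intro w hw
      by_cases hwA : w ∈ A
      · exact hA w hwA
      · exact absurd (if_neg hwA) hw
    · intro w hw
      dsimp only
      rw [if_pos hw]
      exact (hGG w hw).1
    · intro w hw
      dsimp only
      rw [if_neg hw]
    · intro Z
      refine sum_congr rfl fun w _ => ?_
      by_cases hw : P' w t
      · simp only [if_pos hw]
      · simp only [if_neg hw]
  have hgn : ip (N + 1) k' g g ≤ F1 ^ 2 :=
    first_step hk'.le hf A hcard (fun w => P' w t) G (fun w hw => hs_nil (hGG w hw).1)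
      (fun w hw => (hGG w hw).2)
  obtain ⟨B, hB0, hBs, hBg, hBt⟩ := exits hPP hX hgH
  have hxnn : ∀ Z, 0 ≤ hx Z := hs_nonneg hxH
  have htot := hmin _ (hBt K hK)
  -- the set of exits
  set s : Finset (ℕ × V) := (range (t + 1) ×ˢ univ).filter
    (fun u => P u.2 u.1 ∧ ¬ P' u.2 u.1 ∧ u.2 ∉ X') with hs
  have hsum : ∀ φ : ℕ → V → ℝ, (∀ t' w, (∀ Z, B t' w Z = 0) → φ t' w = 0) →
      ∑ t' ∈ range (t + 1), ∑ w, φ t' w = ∑ u ∈ s, φ u.1 u.2 := by
    intro φ hφ
    rw [← sum_product' (f := φ), hs, sum_filter_of_ne]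
    rintro ⟨t', w⟩ _ hne
    have : ∃ Z, B t' w Z ≠ 0 := by
      by_contra hcon
      push_neg at hcon
      exact hne (hφ t' w hcon)
    obtain ⟨Z, hZ⟩ := this
    exact (hBs t' w Z hZ).2
  -- split the total
  have e1 : ip (N + 1) k (fun Z => g Z + ∑ t' ∈ range (t + 1), ∑ w,
      conv (B t' w) (pre w (K t' w)) Z) hx =
      ip (N + 1) k g hx + ∑ u ∈ s, B u.1 u.2 [] * ip (N + 1) k (pre u.2 (K u.1 u.2)) hx +
      ∑ Z ∈ W V (N + 1), ∑ i ∈ range Z.length, (if i = 0 then 0 else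
        wt k Z * (∑ u ∈ s, B u.1 u.2 (Z.take i) * pre u.2 (K u.1 u.2) (Z.drop i)) * hx Z) := by
    have e2 : ∀ Z, ∑ t' ∈ range (t + 1), ∑ w, conv (B t' w) (pre w (K t' w)) Z =
        ∑ u ∈ s, conv (B u.1 u.2) (pre u.2 (K u.1 u.2)) Z := fun Z =>
      hsum (fun t' w => conv (B t' w) (pre w (K t' w)) Z) fun t' w h => by
        have : B t' w = fun _ => 0 := funext h
        rw [this, conv_zero_left]
    simp only [e2]
    rw [ip_add_left, add_assoc]
    congr 1
    have e3 : ∀ Z ∈ W V (N + 1), wt k Z * ((∑ u ∈ s, conv (B u.1 u.2) (pre u.2 (K u.1 u.2)) Z) *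
        hx Z) = (∑ u ∈ s, B u.1 u.2 [] * (wt k Z * (pre u.2 (K u.1 u.2) Z * hx Z))) +
        ∑ i ∈ range Z.length, (if i = 0 then 0 else
          wt k Z * (∑ u ∈ s, B u.1 u.2 (Z.take i) * pre u.2 (K u.1 u.2) (Z.drop i)) * hx Z) := by
      intro Z _
      cases Z with
      | nil => simp [wt]
      | cons a Z =>
        simp only [conv]
        rw [sum_comm, List.length_cons, sum_range_succ', sum_range_succ']
        simp only [List.take_zero, List.drop_zero, if_true, add_zero, Nat.add_eq_zero_iff,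
          one_ne_zero, and_false, if_false]
        rw [add_mul, mul_add, sum_mul, mul_sum, sum_mul, mul_sum, add_comm]
        congr 1
        · refine sum_congr rfl fun u _ => by ring
        · refine sum_congr rfl fun i _ => by ring
    rw [ip, sum_congr rfl e3, sum_add_distrib]
    congr 1
    rw [sum_comm]
    exact sum_congr rfl fun u _ => by rw [ip, mul_sum]
  rw [e1] at htot
  -- the three estimates
  have h1 : ip (N + 1) k g hx ≤ F1 * M :=
    ip_le hk.le hF10 hM.le ((ip_mono_k hk.le (by linarith) g).trans hgn) hxM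
  have hν : ∑ u ∈ s, B u.1 u.2 [] ≤ 1 := by
    have h := hBg []
    rw [hsum (fun t' w => B t' w []) (fun t' w h => h []), hs_nil hgH] at h
    exact h
  have h2 : ∑ u ∈ s, B u.1 u.2 [] * ip (N + 1) k (pre u.2 (K u.1 u.2)) hx ≤
      (1 - lam) * M ^ 2 + (1 + Real.sqrt k * M) * (th * M) := by
    have h3 : ∀ u ∈ s, ip (N + 1) k (pre u.2 (K u.1 u.2)) hx ≤
        (1 - lam) * M ^ 2 + (1 + Real.sqrt k * M) * (th * M) := by
      intro u hu
      obtain ⟨hu1, hu2, hu3, hu4⟩ := mem_filter.1 hu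
      have hu5 : u.1 ≤ t := by
        have := mem_range.1 (mem_product.1 hu1).1
        omega
      refine (ip_pre_le hk.le hM.le (by positivity) u.2 (hs_nil (hK _ _ hu2))
        (hKM _ _ hu5 hu2) (hheavy _ hu4)).trans ?_
      have := hphi _ _ hu5 hu2 hu3 hu4
      linarith
    have h4 : 0 ≤ (1 - lam) * M ^ 2 + (1 + Real.sqrt k * M) * (th * M) := by
      have : 0 ≤ 1 - lam := by linarith
      positivity
    calc _ ≤ ∑ u ∈ s, B u.1 u.2 [] * ((1 - lam) * M ^ 2 + (1 + Real.sqrt k * M) * (th * M)) :=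
          sum_le_sum fun u hu => mul_le_mul_of_nonneg_left (h3 u hu) (hB0 _ _ _)
      _ = (∑ u ∈ s, B u.1 u.2 []) * ((1 - lam) * M ^ 2 + (1 + Real.sqrt k * M) * (th * M)) := by
          rw [sum_mul]
      _ ≤ 1 * ((1 - lam) * M ^ 2 + (1 + Real.sqrt k * M) * (th * M)) :=
          mul_le_mul_of_nonneg_right hν h4
      _ = _ := one_mul _
  have h5 := conv_est s hk hkk (B := fun u => B u.1 u.2) (K := fun u => pre u.2 (K u.1 u.2))
    (g := g) (hx := hx) (f := F1) (C := C) (M := M) (N := N + 1) (fun u Z => hB0 _ _ _) hC0 hM.le hF10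
    (fun u hu => by
      obtain ⟨hu1, hu2, hu3, hu4⟩ := mem_filter.1 hu
      have hu5 : u.1 ≤ t := by
        have := mem_range.1 (mem_product.1 hu1).1
        omega
      exact ip_pre_self_le hk.le hM.le u.2 (hs_nil (hK _ _ hu2)) (hKM _ _ hu5 hu2))
    (fun Z hZ => hs_long hxH (by omega)) hxM hgn
    (fun Z _ => by
      have h := hBg Z
      rw [hsum (fun t' w => B t' w Z) (fun t' w h => h Z)] at h
      exact h)
  have h6 : M ^ 2 ≤ F1 * M + ((1 - lam) * M ^ 2 + (1 + Real.sqrt k * M) * (th * M)) +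
      Real.sqrt k' * F1 * C * M := by linarith
  have h7 : (lam * M) * M ≤ (F1 * (1 + Real.sqrt k' * C) + (1 + Real.sqrt k * M) * th) * M := by
    nlinarith
  exact le_of_mul_le_mul_right h7 hM

end Pool.Agent.H81.TTK
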