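import Pool.Agent.H81.TTK.Norm

/-!
# Random paths from word vectors
-/

set_option autoImplicit false

namespace Pool.Agent.H81.TTK

open Finset

variable {V : Type*} [Fintype V] [DecidableEq V] {adj : V → V → Prop} {P : V → ℕ → Prop}
  {X : Finset V}

theorem pos_state {t : ℕ} {v : V} {h : List V → ℝ} (hh : h ∈ Hs adj P X t v) {z : V} {Z : List V}
    (hp : h (z :: Z) ≠ 0) : ∃ t' < t, P z t' := by
  induction t generalizing v h with
  | zero =>
    rw [hs_zero, Set.mem_singleton_iff] at hh
    rw [hh] at hp
    exact absurd (one_ne (List.cons_ne_nil z Z)) hp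
  | succ t ih =>
    obtain ⟨α, k, h0, h1, h2, h3, h4, h5⟩ := hh
    rw [h5] at hp
    obtain ⟨w, _, hw⟩ := exists_ne_zero_of_sum_ne_zero hp
    have hw2 := right_ne_zero_of_mul hw
    by_cases hP : P w t
    · rw [if_pos hP, pre_cons] at hw2
      by_cases hz : z = w
      · exact ⟨t, Nat.lt_succ_self t, hz ▸ hP⟩
      · rw [if_neg hz, add_zero] at hw2
        obtain ⟨t', ht', hPt⟩ := ih (h3 w hP) hw2
        exact ⟨t', ht'.trans (Nat.lt_succ_self t), hPt⟩
    · rw [if_neg hP] at hw2
      exact absurd (one_ne (List.cons_ne_nil z Z)) hw2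

theorem path_weights {t : ℕ} {v : V} {h : List V → ℝ} (hh : h ∈ Hs adj P X t v) (z : V)
    (Z : List V) : ∃ q : List V → ℝ, (∀ l, 0 ≤ q l) ∧
      (∀ l, q l ≠ 0 → l.length < t ∧ List.IsChain adj (v :: (l ++ [z]))) ∧
      (∀ N, t ≤ N → ∑ l ∈ W V N, q l = h (z :: Z)) ∧
      ∀ N, t ≤ N → ∀ y, ∑ l ∈ W V N, q l * (l.count y : ℝ) = h (y :: z :: Z) := by
  classical
  induction t generalizing v h with
  | zero =>
    rw [hs_zero, Set.mem_singleton_iff] at hh
    refine ⟨fun _ => 0, fun _ => le_rfl, fun _ h => absurd rfl h, fun N _ => ?_, fun N _ y => ?_⟩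
    · rw [hh, one_ne (List.cons_ne_nil z Z), sum_const_zero]
    · rw [hh, one_ne (List.cons_ne_nil y _)]
      simp
  | succ t ih =>
    obtain ⟨α, k, h0, h1, h2, h3, h4, h5⟩ := hh
    have hex : ∀ w, ∃ q : List V → ℝ, P w t → (∀ l, 0 ≤ q l) ∧
      (∀ l, q l ≠ 0 → l.length < t ∧ List.IsChain adj (w :: (l ++ [z]))) ∧
      (∀ N, t ≤ N → ∑ l ∈ W V N, q l = k w (z :: Z)) ∧
      ∀ N, t ≤ N → ∀ y, ∑ l ∈ W V N, q l * (l.count y : ℝ) = k w (y :: z :: Z) := by
      intro w
      by_cases hw : P w t
      · obtain ⟨q, hq⟩ := ih (h3 w hw)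
        exact ⟨q, fun _ => hq⟩
      · exact ⟨fun _ => 0, fun h => absurd h hw⟩
    choose q hq using hex
    let Q : List V → ℝ := fun l => match l with
      | [] => α z * (if P z t then k z Z else 0)
      | w :: l' => α w * (if P w t then q w l' else 0)
    have hQnil : Q [] = α z * (if P z t then k z Z else 0) := rfl
    have hQcons : ∀ w l', Q (w :: l') = α w * (if P w t then q w l' else 0) := fun _ _ => rfl
    refine ⟨Q, ?_, ?_, ?_, ?_⟩
    · intro l
      cases l with
      | nil =>
        rw [hQnil]
        refine mul_nonneg (h0 z) ?_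
        split_ifs with hP
        · exact hs_nonneg (h3 z hP) Z
        · exact le_rfl
      | cons w l =>
        rw [hQcons]
        refine mul_nonneg (h0 w) ?_
        split_ifs with hP
        · exact (hq w hP).1 l
        · exact le_rfl
    · intro l hl
      cases l with
      | nil =>
        rw [hQnil] at hl
        refine ⟨by simp, ?_⟩
        have := (h2 z (left_ne_zero_of_mul hl)).1
        simpa using this
      | cons w l =>
        rw [hQcons] at hl
        have hα := left_ne_zero_of_mul hl
        have hr := right_ne_zero_of_mul hl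
        by_cases hP : P w t
        · rw [if_pos hP] at hr
          obtain ⟨hlen, hch⟩ := (hq w hP).2.1 l hr
          refine ⟨by simpa using hlen, ?_⟩
          rw [List.cons_append, List.isChain_cons_cons]
          exact ⟨(h2 w hα).1, hch⟩
        · rw [if_neg hP] at hr
          exact absurd rfl hr
    · intro N hN
      obtain ⟨N', rfl⟩ : ∃ N', N = N' + 1 := ⟨N - 1, by omega⟩
      rw [sum_W_succ, hQnil, h5]
      have e1 : ∀ w, ∑ l ∈ W V N', Q (w :: l) = α w * (if P w t then k w (z :: Z) else 0) := by
        intro w
        simp only [hQcons, ← mul_sum]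
        congr 1
        split_ifs with hP
        · exact (hq w hP).2.2.1 N' (by omega)
        · simp
      simp only [e1]
      have e2 : ∀ w, α w * (if P w t then pre w (k w) (z :: Z) else one (z :: Z)) =
          α w * (if P w t then k w (z :: Z) else 0) +
            (if w = z then α z * (if P z t then k z Z else 0) else 0) := by
        intro w
        by_cases hP : P w t
        · rw [if_pos hP, if_pos hP, pre_cons]
          by_cases hz : z = w
          · subst hz
            rw [if_pos rfl, if_pos rfl, if_pos hP, mul_add]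
          · rw [if_neg hz, if_neg (Ne.symm hz), add_zero, add_zero]
        · rw [if_neg hP, if_neg hP, one_ne (List.cons_ne_nil z Z)]
          by_cases hz : w = z
          · subst hz
            rw [if_pos rfl, if_neg hP]
            simp
          · rw [if_neg hz]
            simp
      rw [sum_congr rfl fun w _ => e2 w, sum_add_distrib, sum_ite_eq' univ z, if_pos (mem_univ z),
        add_comm]
    · intro N hN y
      obtain ⟨N', rfl⟩ : ∃ N', N = N' + 1 := ⟨N - 1, by omega⟩
      rw [sum_W_succ, h5]
      have e1 : ∀ w, ∑ l ∈ W V N', Q (w :: l) * (((w :: l).count y : ℕ) : ℝ) =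
          α w * (if P w t then k w (y :: z :: Z) + (if w = y then k w (z :: Z) else 0) else 0) := by
        intro w
        by_cases hP : P w t
        · have e3 : ∀ l ∈ W V N', Q (w :: l) * (((w :: l).count y : ℕ) : ℝ) =
              α w * (q w l * (l.count y : ℝ) + (if w = y then q w l else 0)) := by
            intro l _
            rw [hQcons, if_pos hP, List.count_cons]
            by_cases hy : w = y
            · simp [hy]
              ring
            · simp [hy]
              ring
          rw [sum_congr rfl e3, ← mul_sum, sum_add_distrib, (hq w hP).2.2.2 N' (by omega) y,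
            if_pos hP]
          congr 2
          split_ifs
          · exact (hq w hP).2.2.1 N' (by omega)
          · simp
        · simp only [hQcons, if_neg hP, mul_zero, zero_mul, sum_const_zero]
      simp only [e1, List.count_nil, Nat.cast_zero, mul_zero, zero_add]
      refine sum_congr rfl fun w _ => ?_
      by_cases hP : P w t
      · rw [if_pos hP, if_pos hP, pre_cons]
        by_cases hy : w = y
        · rw [if_pos hy, if_pos hy.symm]
        · rw [if_neg hy, if_neg (Ne.symm hy)]
      · rw [if_neg hP, if_neg hP, one_ne (List.cons_ne_nil y _)]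

end Pool.Agent.H81.TTK
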