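import Mathlib

/-!
# Words of bounded length and the weighted inner product

`W N` is the finite set of words of length at most `N`.  For functions on words
`ip N k f g = ∑ k ^ (|Z| - 1) * f Z * g Z` over the nonempty words of length at most `N`.
-/

set_option autoImplicit false

namespace Pool.Agent.H81.TTK

open Finset

variable {V : Type*} [Fintype V] [DecidableEq V]

/-- Words of length exactly `n`. -/
def Wn (V : Type*) [Fintype V] [DecidableEq V] : ℕ → Finset (List V)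
  | 0 => {[]}
  | n + 1 => (univ ×ˢ Wn V n).image fun p => p.1 :: p.2

theorem mem_Wn {n : ℕ} {Z : List V} : Z ∈ Wn V n ↔ Z.length = n := by
  induction n generalizing Z with
  | zero => simp [Wn]
  | succ n ih =>
    simp only [Wn, mem_image, mem_product, mem_univ, true_and, Prod.exists]
    constructor
    · rintro ⟨a, b, hb, rfl⟩
      simp [ih.1 hb]
    · intro h
      cases Z with
      | nil => simp at h
      | cons a b => exact ⟨a, b, ih.2 (by simpa using h), rfl⟩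

/-- Words of length at most `N`. -/
def W (V : Type*) [Fintype V] [DecidableEq V] (N : ℕ) : Finset (List V) :=
  (range (N + 1)).biUnion (Wn V)

theorem mem_W {N : ℕ} {Z : List V} : Z ∈ W V N ↔ Z.length ≤ N := by
  simp only [W, mem_biUnion, mem_range, mem_Wn]
  constructor
  · rintro ⟨a, ha, rfl⟩
    omega
  · intro h
    exact ⟨_, by omega, rfl⟩

/-- The weight of a word: `0` for the empty word, `k ^ (|Z| - 1)` otherwise. -/
def wt (k : ℝ) (Z : List V) : ℝ := if Z = [] then 0 else k ^ (Z.length - 1)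

omit [Fintype V] in
theorem wt_nonneg {k : ℝ} (hk : 0 ≤ k) (Z : List V) : 0 ≤ wt k Z := by
  unfold wt
  split_ifs
  · exact le_rfl
  · positivity

omit [Fintype V] in
theorem wt_cons (k : ℝ) (a : V) (Z : List V) : wt k (a :: Z) = k ^ Z.length := by
  simp [wt]

/-- The weighted inner product. -/
def ip (N : ℕ) (k : ℝ) (f g : List V → ℝ) : ℝ := ∑ Z ∈ W V N, wt k Z * (f Z * g Z)

theorem ip_comm (N : ℕ) (k : ℝ) (f g : List V → ℝ) : ip N k f g = ip N k g f := by
  unfold ip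
  exact sum_congr rfl fun Z _ => by ring

theorem ip_self_nonneg {N : ℕ} {k : ℝ} (hk : 0 ≤ k) (f : List V → ℝ) : 0 ≤ ip N k f f :=
  sum_nonneg fun Z _ => mul_nonneg (wt_nonneg hk Z) (mul_self_nonneg _)

theorem ip_add_left (N : ℕ) (k : ℝ) (f f' g : List V → ℝ) :
    ip N k (fun Z => f Z + f' Z) g = ip N k f g + ip N k f' g := by
  simp only [ip, ← sum_add_distrib]
  exact sum_congr rfl fun Z _ => by ring

theorem ip_smul_left (N : ℕ) (k c : ℝ) (f g : List V → ℝ) :
    ip N k (fun Z => c * f Z) g = c * ip N k f g := by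
  simp only [ip, mul_sum]
  exact sum_congr rfl fun Z _ => by ring

theorem ip_sum_left {U : Type*} (s : Finset U) (N : ℕ) (k : ℝ) (f : U → List V → ℝ)
    (g : List V → ℝ) : ip N k (fun Z => ∑ u ∈ s, f u Z) g = ∑ u ∈ s, ip N k (f u) g := by
  simp only [ip]
  rw [sum_comm]
  exact sum_congr rfl fun Z _ => by rw [sum_mul, mul_sum]

theorem ip_mono_left {N : ℕ} {k : ℝ} (hk : 0 ≤ k) {f f' g : List V → ℝ} (hg : ∀ Z, 0 ≤ g Z)
    (h : ∀ Z, Z ≠ [] → f Z ≤ f' Z) : ip N k f g ≤ ip N k f' g := by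
  refine sum_le_sum fun Z _ => ?_
  by_cases hZ : Z = []
  · simp [wt, hZ]
  · exact mul_le_mul_of_nonneg_left (mul_le_mul_of_nonneg_right (h Z hZ) (hg Z)) (wt_nonneg hk Z)

/-- Cauchy-Schwarz. -/
theorem ip_sq_le {N : ℕ} {k : ℝ} (hk : 0 ≤ k) (f g : List V → ℝ) :
    ip N k f g ^ 2 ≤ ip N k f f * ip N k g g := by
  have h := sum_mul_sq_le_sq_mul_sq (W V N) (fun Z => Real.sqrt (wt k Z) * f Z)
    (fun Z => Real.sqrt (wt k Z) * g Z)
  have e : ∀ Z : List V, Real.sqrt (wt k Z) * Real.sqrt (wt k Z) = wt k Z := fun Z =>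
    Real.mul_self_sqrt (wt_nonneg hk Z)
  have e1 : ∀ a b : List V → ℝ, ip N k a b =
      ∑ Z ∈ W V N, (Real.sqrt (wt k Z) * a Z) * (Real.sqrt (wt k Z) * b Z) := fun a b => by
    unfold ip
    exact sum_congr rfl fun Z _ => by
      rw [mul_mul_mul_comm, e]
  rw [e1, e1 f f, e1 g g]
  simpa only [sq] using h

theorem ip_le {N : ℕ} {k : ℝ} (hk : 0 ≤ k) {f g : List V → ℝ} {a b : ℝ} (ha : 0 ≤ a) (hb : 0 ≤ b)
    (hf : ip N k f f ≤ a ^ 2) (hg : ip N k g g ≤ b ^ 2) : ip N k f g ≤ a * b := by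
  have h := ip_sq_le (N := N) hk f g
  have h2 : ip N k f g ^ 2 ≤ (a * b) ^ 2 := by
    rw [mul_pow]
    exact h.trans (mul_le_mul hf hg (ip_self_nonneg hk g) (sq_nonneg a))
  exact abs_le_of_sq_le_sq' h2 (mul_nonneg ha hb) |>.2

/-- Triangle inequality for sums with nonnegative coefficients. -/
theorem ip_sum_self_le {U : Type*} (s : Finset U) {N : ℕ} {k : ℝ} (hk : 0 ≤ k) (c : U → ℝ)
    (hc : ∀ u ∈ s, 0 ≤ c u) (f : U → List V → ℝ) {a : ℝ} (ha : 0 ≤ a)
    (hf : ∀ u ∈ s, ip N k (f u) (f u) ≤ a ^ 2) :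
    ip N k (fun Z => ∑ u ∈ s, c u * f u Z) (fun Z => ∑ u ∈ s, c u * f u Z) ≤
      ((∑ u ∈ s, c u) * a) ^ 2 := by
  rw [ip_sum_left s N k (fun u Z => c u * f u Z)]
  have h1 : ∀ u ∈ s, ip N k (fun Z => c u * f u Z) (fun Z => ∑ u ∈ s, c u * f u Z) ≤
      c u * (∑ v ∈ s, c v) * a ^ 2 := by
    intro u hu
    rw [ip_comm, ip_sum_left s N k (fun u Z => c u * f u Z), mul_sum, sum_mul]
    refine sum_le_sum fun v hv => ?_
    rw [ip_smul_left, ip_comm, ip_smul_left]
    have := ip_le hk ha ha (hf u hu) (hf v hv)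
    have h0 := mul_nonneg (hc u hu) (hc v hv)
    nlinarith [mul_le_mul_of_nonneg_left this h0]
  calc _ ≤ ∑ u ∈ s, c u * (∑ v ∈ s, c v) * a ^ 2 := sum_le_sum h1
    _ = ((∑ u ∈ s, c u) * a) ^ 2 := by
      rw [← sum_mul, ← sum_mul]
      ring

end Pool.Agent.H81.TTK
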